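import Pool.Agent.Q288.MB.Orb
import Pool.Agent.Q99.AS.Char

/-!
# Blocks: criteria, defects, direct products
-/

set_option autoImplicit false
set_option linter.unusedSectionVars false
set_option linter.style.haveILetI false

open scoped BigOperators Classical

noncomputable section

namespace Pool.Agent.K3h3.KB

open Pool.Agent.Helper884 Pool.Agent.H254R3.IN Pool.Agent.Q288.MB
open Pool.Agent.Q90.WR (irr_of_norm deg_pos irr_comp)
open Pool.Agent.Q99.AS (ten ten_irr ten_inj B_ten isConj_prod)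

/-- `d` is the defect of the block `B`: if `p ^ m` is the smallest `p`-part of the degree of a
character in `B`, then `p ^ (m + d)` is the largest power of `p` dividing `|G|`. -/
def HasDefect (p : ℕ) {G : Type} [Group G] (B : Set (G → ℂ)) (d : ℕ) : Prop :=
  ∃ m : ℕ, IsLeast {k : ℕ | ∃ χ ∈ B, ∃ n : ℕ, (n : ℂ) = χ 1 ∧ n.factorization p = k} m ∧
    m + d = (Nat.card G).factorization p

/-- the degree as a natural number -/
def ndeg {G : Type} [Group G] (χ : G → ℂ) : ℕ := ⌊(χ 1).re⌋₊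

theorem ndeg_eq {G : Type} [Group G] {χ : G → ℂ} {n : ℕ} (h : (n : ℂ) = χ 1) : ndeg χ = n := by
  unfold ndeg
  rw [← h, Complex.natCast_re, Nat.floor_natCast]

theorem ndeg_cast {G : Type} [Group G] {χ : G → ℂ} (h : IsIrr χ) : (ndeg χ : ℂ) = χ 1 := by
  obtain ⟨n, -, h1⟩ := h.deg
  rw [ndeg_eq h1, h1]

theorem ndeg_pos {G : Type} [Group G] {χ : G → ℂ} (h : IsIrr χ) : 0 < ndeg χ := by
  obtain ⟨n, h0, h1⟩ := h.deg
  rw [ndeg_eq h1]
  exact h0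

/-- the exponent of `p` in the degree -/
def vd (p : ℕ) {G : Type} [Group G] (χ : G → ℂ) : ℕ := (ndeg χ).factorization p

theorem hasDefect_iff {p : ℕ} {G : Type} [Group G] {B : Set (G → ℂ)} (hB : ∀ χ ∈ B, IsIrr χ)
    {d : ℕ} : HasDefect p B d ↔ (∀ χ ∈ B, (Nat.card G).factorization p ≤ vd p χ + d) ∧
      ∃ χ ∈ B, vd p χ + d = (Nat.card G).factorization p := by
  constructor
  · rintro ⟨m, ⟨⟨χ₀, h0, n₀, hn₀, hm⟩, hl⟩, hd⟩
    refine ⟨fun χ hχ => ?_, χ₀, h0, ?_⟩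
    · have := hl ⟨χ, hχ, ndeg χ, ndeg_cast (hB χ hχ), rfl⟩
      change m ≤ vd p χ at this
      omega
    · unfold vd
      rw [ndeg_eq hn₀, hm, hd]
  · rintro ⟨h1, χ₀, h0, h2⟩
    refine ⟨vd p χ₀, ⟨⟨χ₀, h0, ndeg χ₀, ndeg_cast (hB _ h0), rfl⟩, ?_⟩, h2⟩
    rintro k ⟨χ, hχ, n, hn, rfl⟩
    have h3 := h1 χ hχ
    unfold vd at h3
    rw [ndeg_eq hn] at h3
    omega

section crit

variable {G : Type} [Group G] [Fintype G] {O : ValuationSubring ℂ}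

theorem red_Om_eq {B : Set (G → ℂ)} (hB : IsBlock O B) {χ ψ : G → ℂ} (hχ : χ ∈ B) (hψ : ψ ∈ B)
    {f : G → ℂ} (hf : IsCl f) (hfO : ∀ g, f g ∈ O) : red O (Om f χ) = red O (Om f ψ) := by
  rw [(red_Om (hB.irr χ hχ) hf hfO).2, (red_Om (hB.irr ψ hψ) hf hfO).2]
  exact Finset.sum_congr rfl fun K _ => by rw [hB.red_eq hχ hψ]

/-- a set of irreducible characters with congruent central characters and integral idempotent is
a block -/
theorem isBlock_of {W : Set (G → ℂ)} (hne : ∃ χ, χ ∈ W) (hi : ∀ χ ∈ W, IsIrr χ)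
    (hc : ∀ χ ∈ W, ∀ ψ ∈ W, ∀ x, red O (omega χ x) = red O (omega ψ x))
    (hO : ∀ g, blockCoeff W g ∈ O) : IsBlock O W := by
  obtain ⟨χ₀, h0⟩ := hne
  refine ⟨χ₀, hi _ h0, Set.Subset.antisymm ?_ ?_⟩
  · intro χ hχ
    refine ⟨hi _ hχ, fun x => ?_⟩
    rw [← red_eq_iff ((hi χ hχ).omega_mem O x) ((hi _ h0).omega_mem O x)]
    exact hc _ hχ _ h0 x
  · rintro χ ⟨hχ, hx⟩
    by_contra hnot
    have hcl := blockCoeff_cl hi
    have e1 := (red_Om hχ hcl hO).2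
    have e2 := (red_Om (hi _ h0) hcl hO).2
    rw [Om_blockCoeff hi hχ, if_neg hnot, red_zero] at e1
    rw [Om_blockCoeff hi (hi _ h0), if_pos h0, red_one] at e2
    have e3 : ∀ K : ConjClasses G, red O (omega χ (rep K)) =
        red O (omega χ₀ (rep K)) := fun K =>
      (red_eq_iff (hχ.omega_mem O _) ((hi _ h0).omega_mem O _)).mpr (hx _)
    rw [Finset.sum_congr rfl fun K _ => by rw [e3 K], ← e2] at e1
    exact zero_ne_one e1

/-- the finite set of the elements of a set of irreducible characters -/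
def fs (B : Set (G → ℂ)) : Finset (G → ℂ) := (IC.Irr G).filter (· ∈ B)

theorem mem_fs {B : Set (G → ℂ)} (hB : ∀ χ ∈ B, IsIrr χ) {χ : G → ℂ} : χ ∈ fs B ↔ χ ∈ B := by
  unfold fs
  rw [Finset.mem_filter, mem_Irr]
  exact ⟨fun h => h.2, fun h => ⟨hB χ h, h⟩⟩

theorem coe_fs {B : Set (G → ℂ)} (hB : ∀ χ ∈ B, IsIrr χ) : (fs B : Set (G → ℂ)) = B := by
  ext χ
  rw [Finset.mem_coe, mem_fs hB]

theorem card_eq_fs {B : Set (G → ℂ)} (hB : ∀ χ ∈ B, IsIrr χ) : Nat.card B = (fs B).card := by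
  conv_lhs => rw [← coe_fs hB]
  exact Nat.card_eq_card_toFinset _ |>.trans (by simp)

theorem blockCoeff_image {ι : Type} (T : Finset ι) (F : ι → G → ℂ) (hinj : Set.InjOn F T) (x : G) :
    blockCoeff (F '' T) x = (Nat.card G : ℂ)⁻¹ * ∑ i ∈ T, F i 1 * F i x⁻¹ := by
  unfold blockCoeff
  rw [finsum_mem_image hinj, finsum_mem_coe_finset]

theorem blockCoeff_fs {B : Set (G → ℂ)} (hB : ∀ χ ∈ B, IsIrr χ) (x : G) :
    blockCoeff B x = (Nat.card G : ℂ)⁻¹ * ∑ χ ∈ fs B, χ 1 * χ x⁻¹ := blockCoeff_eq hB x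

theorem card_image_fin {ι X : Type} (T : Finset ι) (F : ι → X) (hinj : Set.InjOn F T) :
    Nat.card (F '' (T : Set ι)) = T.card := by
  rw [Nat.card_image_of_injOn hinj]
  simp

variable {p : ℕ} [hp : Fact p.Prime]

/-- the blocks of a group of order prime to `p` -/
theorem block_singleton (hpO : (p : ℂ) ∈ O.nonunits) (hG : ¬ p ∣ Nat.card G) {χ : G → ℂ}
    (hχ : IsIrr χ) : IsBlock O ({χ} : Set (G → ℂ)) := by
  refine isBlock_of ⟨χ, rfl⟩ ?_ ?_ ?_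
  · rintro ψ rfl
    exact hχ
  · rintro ψ rfl φ rfl x
    rfl
  · intro g
    have h1 : ({χ} : Set (G → ℂ)) = (fun χ => χ) '' (({χ} : Finset (G → ℂ)) : Set (G → ℂ)) := by
      simp
    rw [h1, blockCoeff_image _ _ (fun _ _ _ _ h => h), Finset.sum_singleton]
    exact O.mul_mem _ _ (nat_inv_mem hpO hG) (O.mul_mem _ _ (hχ.val_mem O 1) (hχ.val_mem O _))

/-- valuations of quotients -/
theorem fac_le_of_div_mem (hpO : (p : ℂ) ∈ O.nonunits) {a b : ℕ} (ha : a ≠ 0) (hb : b ≠ 0)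
    (h : (a : ℂ) / b ∈ O) : b.factorization p ≤ a.factorization p := by
  by_contra hlt
  push Not at hlt
  obtain ⟨ha1, ha2⟩ := pPrimePart_spec (p := p) ha
  obtain ⟨hb1, hb2⟩ := pPrimePart_spec (p := p) hb
  set a' := pPrimePart p a
  set b' := pPrimePart p b
  obtain ⟨t, ht⟩ := Nat.exists_eq_add_of_lt hlt
  have hp0 : (p : ℂ) ≠ 0 := by exact_mod_cast hp.out.ne_zero
  have hb0 : (b : ℂ) ≠ 0 := by exact_mod_cast hb
  have e1 : (a : ℂ) = (p : ℂ) ^ a.factorization p * a' := by exact_mod_cast ha1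
  have e2 : (b : ℂ) = (p : ℂ) ^ (a.factorization p + t + 1) * b' := by
    rw [← ht]
    exact_mod_cast hb1
  have e3 : (a : ℂ) / b * ((p : ℂ) * ((p : ℂ) ^ t * b')) = a' := by
    rw [div_mul_eq_mul_div, div_eq_iff hb0, e1, e2]
    ring
  have hpO' : (p : ℂ) ∈ O := natCast_mem' p
  have m1 : (p : ℂ) ^ t * b' ∈ O := O.mul_mem _ _ (pow_mem hpO' t) (natCast_mem' _)
  have h3 := congrArg (red O) e3
  rw [red_mul h (O.mul_mem _ _ hpO' m1), red_mul hpO' m1, red_eq_zero hpO, zero_mul,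
    mul_zero] at h3
  exact ha2 ((red_nat_eq_zero_iff hpO a').mp h3.symm)

/-- `|G| / χ(1)` is `p`-integral -/
theorem card_div_mem {χ : G → ℂ} (hχ : IsIrr χ) : (Nat.card G : ℂ) / χ 1 ∈ O := by
  have hcl : IsCl (fun g : G => χ g⁻¹) := by
    intro g y
    have e : (y * g * y⁻¹)⁻¹ = y * g⁻¹ * y⁻¹ := by group
    simp only [e]
    exact hχ.conj _ _
  have h1 := (red_Om (O := O) hχ hcl (fun g => hχ.val_mem O _)).1
  unfold Om at h1
  have h2 : ∑ g : G, χ g⁻¹ * χ g = Nat.card G := by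
    have h3 := orth_sum hχ hχ
    rw [if_pos rfl] at h3
    rw [← h3]
    exact Finset.sum_congr rfl fun g _ => mul_comm _ _
  rwa [h2] at h1

theorem vd_le (hpO : (p : ℂ) ∈ O.nonunits) {χ : G → ℂ} (hχ : IsIrr χ) :
    vd p χ ≤ (Nat.card G).factorization p := by
  refine fac_le_of_div_mem hpO Nat.card_pos.ne' (ndeg_pos hχ).ne' ?_
  rw [ndeg_cast hχ]
  exact card_div_mem hχ

/-- every block has a defect -/
theorem exists_defect (hpO : (p : ℂ) ∈ O.nonunits) {B : Set (G → ℂ)} (hB : IsBlock O B) :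
    ∃ d, HasDefect p B d := by
  obtain ⟨χ₁, h1⟩ := hB.nonempty
  have hne : (fs B).Nonempty := ⟨χ₁, (mem_fs hB.irr).mpr h1⟩
  obtain ⟨χ₀, h0, hmin⟩ := Finset.exists_min_image (fs B) (vd p) hne
  have h0' := (mem_fs hB.irr).mp h0
  refine ⟨(Nat.card G).factorization p - vd p χ₀, (hasDefect_iff hB.irr).mpr ⟨?_, χ₀, h0', ?_⟩⟩
  · intro χ hχ
    have := hmin χ ((mem_fs hB.irr).mpr hχ)
    omega
  · have := vd_le (O := O) hpO (hB.irr _ h0')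
    omega

end crit

section prod

variable {G H : Type} [Group G] [Group H] [Fintype G] [Fintype H] {O : ValuationSubring ℂ}

/-- the product of two sets of characters -/
def tenS (A₁ : Set (G → ℂ)) (A₂ : Set (H → ℂ)) : Set (G × H → ℂ) :=
  {χ | ∃ θ ∈ A₁, ∃ ψ ∈ A₂, χ = ten θ ψ}

theorem tenS_irr {A₁ : Set (G → ℂ)} {A₂ : Set (H → ℂ)} (h1 : ∀ θ ∈ A₁, IsIrr θ)
    (h2 : ∀ θ ∈ A₂, IsIrr θ) : ∀ χ ∈ tenS A₁ A₂, IsIrr χ := by
  rintro χ ⟨θ, a, ψ, b, rfl⟩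
  exact ten_irr (h1 θ a) (h2 ψ b)

theorem tenS_eq {A₁ : Set (G → ℂ)} {A₂ : Set (H → ℂ)} (h1 : ∀ θ ∈ A₁, IsIrr θ)
    (h2 : ∀ θ ∈ A₂, IsIrr θ) :
    tenS A₁ A₂ = (fun q : (G → ℂ) × (H → ℂ) => ten q.1 q.2) ''
      ((fs A₁ ×ˢ fs A₂ : Finset _) : Set ((G → ℂ) × (H → ℂ))) := by
  ext χ
  constructor
  · rintro ⟨θ, a, ψ, b, rfl⟩
    exact ⟨(θ, ψ), by
      rw [Finset.mem_coe, Finset.mem_product]; exact ⟨(mem_fs h1).mpr a, (mem_fs h2).mpr b⟩, rfl⟩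
  · rintro ⟨⟨θ, ψ⟩, h, rfl⟩
    rw [Finset.mem_coe, Finset.mem_product] at h
    exact ⟨θ, (mem_fs h1).mp h.1, ψ, (mem_fs h2).mp h.2, rfl⟩

theorem tenS_injOn {A₁ : Set (G → ℂ)} {A₂ : Set (H → ℂ)} (h1 : ∀ θ ∈ A₁, IsIrr θ)
    (h2 : ∀ θ ∈ A₂, IsIrr θ) : Set.InjOn (fun q : (G → ℂ) × (H → ℂ) => ten q.1 q.2)
      ((fs A₁ ×ˢ fs A₂ : Finset _) : Set ((G → ℂ) × (H → ℂ))) := by
  rintro ⟨θ, ψ⟩ h ⟨θ', ψ'⟩ h' e
  rw [Finset.mem_coe, Finset.mem_product, mem_fs h1, mem_fs h2] at h h'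
  obtain ⟨e1, e2⟩ := ten_inj (h1 _ h.1) (h2 _ h.2) (h1 _ h'.1) (h2 _ h'.2) e
  exact Prod.ext e1 e2

theorem card_tenS {A₁ : Set (G → ℂ)} {A₂ : Set (H → ℂ)} (h1 : ∀ θ ∈ A₁, IsIrr θ)
    (h2 : ∀ θ ∈ A₂, IsIrr θ) : Nat.card (tenS A₁ A₂) = Nat.card A₁ * Nat.card A₂ := by
  rw [tenS_eq h1 h2, card_image_fin _ _ (tenS_injOn h1 h2), Finset.card_product, card_eq_fs h1,
    card_eq_fs h2]

theorem blockCoeff_tenS {A₁ : Set (G → ℂ)} {A₂ : Set (H → ℂ)} (h1 : ∀ θ ∈ A₁, IsIrr θ)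
    (h2 : ∀ θ ∈ A₂, IsIrr θ) (x : G × H) :
    blockCoeff (tenS A₁ A₂) x = blockCoeff A₁ x.1 * blockCoeff A₂ x.2 := by
  rw [tenS_eq h1 h2, blockCoeff_image _ _ (tenS_injOn h1 h2), blockCoeff_fs h1, blockCoeff_fs h2,
    Nat.card_prod, Finset.sum_product]
  push_cast
  rw [mul_inv, mul_mul_mul_comm, Finset.sum_mul_sum]
  congr 1
  refine Finset.sum_congr rfl fun a _ => Finset.sum_congr rfl fun b _ => ?_
  simp only [ten, Prod.fst_one, Prod.snd_one, Prod.fst_inv, Prod.snd_inv]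
  ring

theorem omega_ten (θ : G → ℂ) (ψ : H → ℂ) (x : G × H) :
    omega (ten θ ψ) x = omega θ x.1 * omega ψ x.2 := by
  have h : Nat.card {y : G × H // IsConj x y} =
      Nat.card {y : G // IsConj x.1 y} * Nat.card {y : H // IsConj x.2 y} := by
    rw [← Nat.card_prod]
    refine Nat.card_congr
      { toFun := fun y => (⟨y.1.1, (isConj_prod.mp y.2).1⟩, ⟨y.1.2, (isConj_prod.mp y.2).2⟩)
        invFun := fun y => ⟨(y.1.1, y.2.1), isConj_prod.mpr ⟨y.1.2, y.2.2⟩⟩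
        left_inv := fun _ => rfl
        right_inv := fun _ => rfl }
  unfold omega
  rw [h]
  simp only [ten, Prod.fst_one, Prod.snd_one]
  push_cast
  rw [div_mul_div_comm]
  ring

theorem tenS_block {B₁ : Set (G → ℂ)} {B₂ : Set (H → ℂ)} (h1 : IsBlock O B₁)
    (h2 : IsBlock O B₂) : IsBlock O (tenS B₁ B₂) := by
  obtain ⟨θ, hθ⟩ := h1.nonempty
  obtain ⟨ψ, hψ⟩ := h2.nonempty
  refine isBlock_of ⟨_, θ, hθ, ψ, hψ, rfl⟩ (tenS_irr h1.irr h2.irr) ?_ ?_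
  · rintro _ ⟨θ₁, a1, ψ₁, b1, rfl⟩ _ ⟨θ₂, a2, ψ₂, b2, rfl⟩ x
    rw [omega_ten, omega_ten, red_mul ((h1.irr _ a1).omega_mem O _) ((h2.irr _ b1).omega_mem O _),
      red_mul ((h1.irr _ a2).omega_mem O _) ((h2.irr _ b2).omega_mem O _), h1.red_eq a1 a2,
      h2.red_eq b1 b2]
  · intro x
    rw [blockCoeff_tenS h1.irr h2.irr]
    exact O.mul_mem _ _ (blockCoeff_mem h1 _) (blockCoeff_mem h2 _)

theorem ndeg_ten {θ : G → ℂ} {ψ : H → ℂ} (h1 : IsIrr θ) (h2 : IsIrr ψ) :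
    ndeg (ten θ ψ) = ndeg θ * ndeg ψ := by
  apply ndeg_eq
  push_cast
  rw [ndeg_cast h1, ndeg_cast h2]
  rfl

theorem vd_ten {p : ℕ} {θ : G → ℂ} {ψ : H → ℂ} (h1 : IsIrr θ) (h2 : IsIrr ψ) :
    vd p (ten θ ψ) = vd p θ + vd p ψ := by
  unfold vd
  rw [ndeg_ten h1 h2, Nat.factorization_mul (ndeg_pos h1).ne' (ndeg_pos h2).ne']
  rfl

theorem tenS_defect {p : ℕ} {B₁ : Set (G → ℂ)} {B₂ : Set (H → ℂ)} (h1 : ∀ χ ∈ B₁, IsIrr χ)
    (h2 : ∀ χ ∈ B₂, IsIrr χ) {d₁ d₂ : ℕ} (hd1 : HasDefect p B₁ d₁) (hd2 : HasDefect p B₂ d₂) :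
    HasDefect p (tenS B₁ B₂) (d₁ + d₂) := by
  rw [hasDefect_iff h1] at hd1
  rw [hasDefect_iff h2] at hd2
  rw [hasDefect_iff (tenS_irr h1 h2), Nat.card_prod,
    Nat.factorization_mul Nat.card_pos.ne' Nat.card_pos.ne', Finsupp.add_apply]
  obtain ⟨a1, χ₁, c1, e1⟩ := hd1
  obtain ⟨a2, χ₂, c2, e2⟩ := hd2
  constructor
  · rintro _ ⟨θ, t1, ψ, t2, rfl⟩
    rw [vd_ten (h1 _ t1) (h2 _ t2)]
    have := a1 θ t1
    have := a2 ψ t2
    omega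
  · refine ⟨_, ⟨χ₁, c1, χ₂, c2, rfl⟩, ?_⟩
    rw [vd_ten (h1 _ c1) (h2 _ c2)]
    omega

end prod

end Pool.Agent.K3h3.KB
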