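import Pool.Agent.K3h3.KB.Base
import Pool.Agent.Y62.Low2
import Pool.Agent.Y63.AWC.Norm

/-!
# Blocks of normal subgroups
-/

set_option autoImplicit false
set_option linter.unusedSectionVars false
set_option linter.style.haveILetI false

open scoped BigOperators Classical

noncomputable section

namespace Pool.Agent.K3h3.KB

open Pool.Agent.Helper884 Pool.Agent.H254R3.IN Pool.Agent.Q288.MB
open Pool.Agent.Y62 (conv_scalar tw tw_irr omega_tw block_of_red)
open Pool.Agent.Y63.AWC (res cj mult mult_spec res_eq clifford cj_irr cj_mul cj_one res_class B_cj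
  ind_eq mult_cj)

section unions

variable {G : Type} [Group G] [Fintype G] {O : ValuationSubring ℂ}

/-- the block of an irreducible character -/
def blk (O : ValuationSubring ℂ) (χ₀ : G → ℂ) : Set (G → ℂ) :=
  {χ | IsIrr χ ∧ ∀ x : G, omega χ x - omega χ₀ x ∈ O.nonunits}

theorem blk_block {χ₀ : G → ℂ} (h : IsIrr χ₀) : IsBlock O (blk O χ₀) := ⟨χ₀, h, rfl⟩

theorem mem_blk_self {χ₀ : G → ℂ} (h : IsIrr χ₀) : χ₀ ∈ blk O χ₀ :=
  ⟨h, fun x => by rw [sub_self]; exact O.nonunits.zero_mem⟩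

theorem blk_eq {χ χ₀ : G → ℂ} (h0 : IsIrr χ₀) (h : χ ∈ blk O χ₀) : blk O χ = blk O χ₀ := by
  by_contra hne
  exact Set.disjoint_left.mp (block_disjoint (blk_block h.1) (blk_block h0) hne)
    (mem_blk_self h.1) h

/-- the idempotent of a union of blocks is integral -/
theorem blockCoeff_union {U : Set (G → ℂ)} (hU : ∀ χ ∈ U, IsIrr χ)
    (hc : ∀ χ ∈ U, blk O χ ⊆ U) (g : G) : blockCoeff U g ∈ O := by
  have h1 : blockCoeff U g = ∑ b ∈ (fs U).image (blk O), blockCoeff b g := by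
    rw [blockCoeff_fs hU]
    have h2 : ∑ χ ∈ fs U, χ 1 * χ g⁻¹ =
        ∑ b ∈ (fs U).image (blk O), ∑ χ ∈ (fs U).filter (fun χ => blk O χ = b), χ 1 * χ g⁻¹ :=
      (Finset.sum_fiberwise_of_maps_to (fun χ hχ => Finset.mem_image_of_mem _ hχ) _).symm
    rw [h2, Finset.mul_sum]
    refine Finset.sum_congr rfl fun b hb => ?_
    obtain ⟨χ₀, h0, rfl⟩ := Finset.mem_image.mp hb
    have h0U := (mem_fs hU).mp h0
    have h0i := hU _ h0U
    rw [blockCoeff_fs (blk_block h0i).irr]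
    congr 1
    apply Finset.sum_congr _ fun _ _ => rfl
    ext χ
    rw [Finset.mem_filter, mem_fs hU, mem_fs (blk_block (O := O) h0i).irr]
    constructor
    · rintro ⟨h3, h4⟩
      rw [← h4]
      exact mem_blk_self (hU _ h3)
    · intro h3
      exact ⟨hc _ h0U h3, blk_eq h0i h3⟩
  rw [h1]
  refine sum_mem fun b hb => ?_
  obtain ⟨χ₀, h0, rfl⟩ := Finset.mem_image.mp hb
  exact blockCoeff_mem (blk_block (hU _ ((mem_fs hU).mp h0))) g

end unions

section cov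

variable {X : Type} [Group X] [Fintype X] (M : Subgroup X) [hM : M.Normal]
  {O : ValuationSubring ℂ}

/-- extension by zero -/
def ext0 (f : M → ℂ) (g : X) : ℂ := if h : g ∈ M then f ⟨g, h⟩ else 0

theorem ext0_cl {f : M → ℂ} (hf : ∀ x : X, cj M x f = f) : IsCl (ext0 M f) := by
  intro g y
  unfold ext0
  by_cases h : g ∈ M
  · have h' : y * g * y⁻¹ ∈ M := hM.conj_mem g h y
    rw [dif_pos h, dif_pos h', ← congrFun (hf y) ⟨g, h⟩]
    unfold cj
    congr 1
  · have h' : y * g * y⁻¹ ∉ M := by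
      intro h'
      apply h
      have := hM.conj_mem _ h' y⁻¹
      have e : y⁻¹ * (y * g * y⁻¹) * y⁻¹⁻¹ = g := by group
      rwa [e] at this
    rw [dif_neg h, dif_neg h']

theorem ext0_mem {f : M → ℂ} (hf : ∀ g, f g ∈ O) (g : X) : ext0 M f g ∈ O := by
  unfold ext0
  split_ifs
  · exact hf _
  · exact O.zero_mem

theorem sum_ext0 (f : M → ℂ) (h : X → ℂ) : ∑ g, ext0 M f g * h g = ∑ m : M, f m * h m := by
  rw [Pool.Agent.Y63.AWC.sum_M M (fun g => ext0 M f g * h g) (by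
    intro g hg
    simp only [ext0, dif_neg hg, zero_mul])]
  refine Finset.sum_congr rfl fun m _ => ?_
  simp only [ext0, dif_pos m.2]

theorem cl_of_inv {f : M → ℂ} (hf : ∀ x : X, cj M x f = f) : IsCl f := by
  intro g y
  rw [← congrFun (hf (y : X)) g]
  unfold cj
  congr 1

/-- The scalar of an invariant class function of the normal subgroup on a constituent. -/
theorem Om_res {χ : X → ℂ} (hχ : IsIrr χ) {θ : M → ℂ} (hθ : IsIrr θ) (hm : mult M χ θ ≠ 0)
    {f : M → ℂ} (hf : ∀ x : X, cj M x f = f) : Om f θ = Om (ext0 M f) χ := by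
  have hcl := cl_of_inv M hf
  -- the identity on `M`
  have h1 : ∀ g : M, ∑ ψ ∈ IC.Irr M, (mult M χ ψ : ℂ) * Om f ψ * ψ g =
      Om (ext0 M f) χ * ∑ ψ ∈ IC.Irr M, (mult M χ ψ : ℂ) * ψ g := by
    intro g
    have h2 := conv_scalar hχ (ext0_cl M hf) (g : X)
    rw [sum_ext0 M f (fun x => χ (x * g))] at h2
    have h3 : ∀ y : M, χ (y : X) = ∑ ψ ∈ IC.Irr M, (mult M χ ψ : ℂ) * ψ y := by
      intro y
      have := congrFun (res_eq M hχ) y
      rw [Finset.sum_apply] at this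
      exact this
    have h4 : ∑ m : M, f m * χ ((m : X) * g) =
        ∑ ψ ∈ IC.Irr M, (mult M χ ψ : ℂ) * Om f ψ * ψ g := by
      have h5 : ∀ m : M, f m * χ ((m : X) * g) =
          ∑ ψ ∈ IC.Irr M, (mult M χ ψ : ℂ) * (f m * ψ (m * g)) := by
        intro m
        have e : (m : X) * (g : X) = ((m * g : M) : X) := rfl
        rw [e, h3, Finset.mul_sum]
        refine Finset.sum_congr rfl fun ψ _ => ?_
        ring
      simp_rw [h5]
      rw [Finset.sum_comm]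
      refine Finset.sum_congr rfl fun ψ hψ => ?_
      rw [← Finset.mul_sum, conv_scalar (mem_Irr.mp hψ) hcl g, mul_assoc]
    rw [← h4, h2, h3 g]
  have h6 := congrArg (fun F : M → ℂ => IC.B F θ) (funext h1)
  have e1 : (fun g : M => ∑ ψ ∈ IC.Irr M, (mult M χ ψ : ℂ) * Om f ψ * ψ g) =
      ∑ ψ ∈ IC.Irr M, ((mult M χ ψ : ℂ) * Om f ψ) • ψ := by
    funext g
    rw [Finset.sum_apply]
    rfl
  have e2 : (fun g : M => Om (ext0 M f) χ * ∑ ψ ∈ IC.Irr M, (mult M χ ψ : ℂ) * ψ g) =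
      Om (ext0 M f) χ • ∑ ψ ∈ IC.Irr M, (mult M χ ψ : ℂ) • ψ := by
    funext g
    rw [Pi.smul_apply, Finset.sum_apply]
    rfl
  simp only [e1, e2] at h6
  rw [IC.B_smul_left, IC.B_sum_left, IC.B_sum_left] at h6
  simp only [IC.B_smul_left] at h6
  have h7 : ∀ c : (M → ℂ) → ℂ, ∑ ψ ∈ IC.Irr M, c ψ * IC.B ψ θ = c θ := by
    intro c
    rw [Finset.sum_eq_single θ]
    · rw [IC.B_irr hθ hθ, if_pos rfl, mul_one]
    · intro ψ hψ hne
      rw [IC.B_irr (mem_Irr.mp hψ) hθ, if_neg hne, mul_zero]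
    · intro h
      exact absurd (mem_Irr.mpr hθ) h
  rw [h7 (fun ψ => (mult M χ ψ : ℂ) * Om f ψ), h7 (fun ψ => (mult M χ ψ : ℂ))] at h6
  have h8 : (mult M χ θ : ℂ) ≠ 0 := by exact_mod_cast hm
  apply mul_left_cancel₀ h8
  rw [h6, mul_comm]

theorem exists_cj {χ : X → ℂ} (hχ : IsIrr χ) {θ θ' : M → ℂ} (h : IsIrr θ) (h' : IsIrr θ')
    (m1 : mult M χ θ ≠ 0) (m2 : mult M χ θ' ≠ 0) : ∃ x : X, cj M x θ' = θ := by
  have h1 := clifford M θ θ' h h'
  have h2 : 0 < ∑ χ ∈ IC.Irr X, mult M χ θ * mult M χ θ' := by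
    refine lt_of_lt_of_le (Nat.pos_of_ne_zero (mul_ne_zero m1 m2))
      (Finset.single_le_sum (f := fun χ => mult M χ θ * mult M χ θ') (fun _ _ => Nat.zero_le _)
        (mem_Irr.mpr hχ))
  have h3 : 0 < Nat.card {x : X // cj M x θ' = θ} := by
    rw [← h1]
    exact Nat.mul_pos Nat.card_pos h2
  obtain ⟨⟨x, hx⟩⟩ := (Nat.card_pos_iff.mp h3).1
  exact ⟨x, hx⟩

theorem card_over {θ : M → ℂ} (h : IsIrr θ) :
    ((IC.Irr X).filter fun χ => mult M χ θ ≠ 0).card ≤ M.index := by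
  have h1 := clifford M θ θ h h
  have h2 : ((IC.Irr X).filter fun χ => mult M χ θ ≠ 0).card ≤
      ∑ χ ∈ IC.Irr X, mult M χ θ * mult M χ θ := by
    rw [Finset.card_filter]
    refine Finset.sum_le_sum fun χ _ => ?_
    split_ifs with h3
    · exact Nat.one_le_iff_ne_zero.mpr (mul_ne_zero h3 h3)
    · exact Nat.zero_le _
  have h4 : Nat.card {x : X // cj M x θ = θ} ≤ Nat.card X :=
    Nat.card_le_card_of_injective Subtype.val Subtype.val_injective
  have h5 := M.card_mul_index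
  rw [← h1, ← h5] at h4
  exact h2.trans (Nat.le_of_mul_le_mul_left h4 Nat.card_pos)

theorem exists_mult {χ : X → ℂ} (hχ : IsIrr χ) : ∃ θ : M → ℂ, IsIrr θ ∧ mult M χ θ ≠ 0 := by
  by_contra hcon
  push Not at hcon
  have h1 := congrFun (res_eq M hχ) 1
  rw [Finset.sum_apply, Finset.sum_eq_zero] at h1
  · exact hχ.one_ne h1
  · intro θ hθ
    rw [hcon θ (mem_Irr.mp hθ)]
    simp

theorem cj_at_one (x : X) (θ : M → ℂ) : cj M x θ 1 = θ 1 := by
  unfold cj
  rw [map_one]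

theorem cj_mem_M {θ : M → ℂ} (h : IsIrr θ) (n : M) : cj M (n : X) θ = θ := by
  funext g
  have := h.conj g n
  unfold cj
  rw [← this]
  congr 1

/-- degrees of the characters over `θ` -/
theorem deg_over {χ : X → ℂ} (hχ : IsIrr χ) {θ : M → ℂ} (h : IsIrr θ) (hm : mult M χ θ ≠ 0) :
    ∃ c : ℕ, 0 < c ∧ c ≤ M.index ∧ ndeg χ = c * ndeg θ := by
  have h1 := congrFun (res_eq M hχ) 1
  rw [Finset.sum_apply] at h1
  have h2 : ∀ ψ ∈ IC.Irr M, ((mult M χ ψ : ℂ) • ψ) 1 = (mult M χ ψ : ℂ) * θ 1 := by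
    intro ψ hψ
    rw [Pi.smul_apply, smul_eq_mul]
    by_cases h3 : mult M χ ψ = 0
    · rw [h3]
      simp
    · obtain ⟨x, rfl⟩ := exists_cj M hχ (mem_Irr.mp hψ) h h3 hm
      rw [cj_at_one]
  rw [Finset.sum_congr rfl h2, ← Finset.sum_mul] at h1
  have h4 : ndeg χ = (∑ ψ ∈ IC.Irr M, mult M χ ψ) * ndeg θ := by
    apply ndeg_eq
    push_cast
    rw [ndeg_cast h]
    exact h1.symm
  have hpos : 0 < ∑ ψ ∈ IC.Irr M, mult M χ ψ := by
    by_contra h0
    have := ndeg_pos hχ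
    rw [h4, Nat.eq_zero_of_not_pos h0, zero_mul] at this
    exact lt_irrefl _ this
  refine ⟨_, hpos, ?_, h4⟩
  -- the induced character
  have h5 := congrFun (ind_eq M θ h) 1
  rw [Finset.sum_apply] at h5
  have h6 : Pool.Agent.Y63.AWC.ind M θ 1 = M.index * θ 1 := by
    unfold Pool.Agent.Y63.AWC.ind
    rw [dif_pos M.one_mem]
    have e : ∀ x : X, cj M x θ ⟨1, M.one_mem⟩ = θ 1 := fun x => cj_at_one M x θ
    simp_rw [e]
    rw [Finset.sum_const, Finset.card_univ, nsmul_eq_mul, ← Nat.card_eq_fintype_card,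
      ← M.card_mul_index]
    have := IC.cardG_ne (G := M)
    push_cast
    field_simp
  rw [h6] at h5
  have h7 : M.index * ndeg θ = ∑ χ' ∈ IC.Irr X, mult M χ' θ * ndeg χ' := by
    have : ((M.index * ndeg θ : ℕ) : ℂ) = ((∑ χ' ∈ IC.Irr X, mult M χ' θ * ndeg χ' : ℕ) : ℂ) := by
      push_cast
      rw [ndeg_cast h, h5]
      refine Finset.sum_congr rfl fun χ' hχ' => ?_
      rw [ndeg_cast (mem_Irr.mp hχ')]
      rfl
    exact_mod_cast this
  have h8 : mult M χ θ * ndeg χ ≤ M.index * ndeg θ := by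
    rw [h7]
    exact Finset.single_le_sum (f := fun χ' => mult M χ' θ * ndeg χ') (fun _ _ => Nat.zero_le _)
      (mem_Irr.mpr hχ)
  have h9 : (∑ ψ ∈ IC.Irr M, mult M χ ψ) * ndeg θ ≤ M.index * ndeg θ := by
    rw [← h4]
    refine le_trans ?_ h8
    exact Nat.le_mul_of_pos_left _ (Nat.pos_of_ne_zero hm)
  exact Nat.le_of_mul_le_mul_right h9 (ndeg_pos h)

theorem isConj_equiv {A C : Type} [Group A] [Group C] (e : A ≃* C) {y z : A} :
    IsConj (e y) (e z) ↔ IsConj y z := by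
  constructor
  · intro h
    have := (e.symm : C →* A).map_isConj h
    simpa using this
  · intro h
    exact (e : A →* C).map_isConj h

theorem omega_cj (ψ : M → ℂ) (x : X) (y : M) :
    omega (cj M x ψ) y = omega ψ (MulAut.conjNormal x y) := by
  unfold omega
  rw [cj_at_one]
  congr 3
  exact Nat.card_congr (Equiv.subtypeEquiv (MulAut.conjNormal x).toEquiv fun z =>
    (isConj_equiv (MulAut.conjNormal x)).symm)

/-- conjugates of blocks -/
theorem cj_blk {θ₀ : M → ℂ} {θ : M → ℂ} (h : θ ∈ blk O θ₀) (x : X) :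
    cj M x θ ∈ blk O (cj M x θ₀) := by
  refine ⟨cj_irr M x h.1, fun y => ?_⟩
  rw [omega_cj, omega_cj]
  exact h.2 _

/-- the union of the conjugates of a block -/
def orb (b : Set (M → ℂ)) : Set (M → ℂ) := {θ | IsIrr θ ∧ ∃ x : X, cj M x θ ∈ b}

theorem orb_closed {θ₀ : M → ℂ} (h0 : IsIrr θ₀) :
    ∀ θ ∈ orb M (blk O θ₀), blk O θ ⊆ orb M (blk O θ₀) := by
  rintro θ ⟨h1, x, hx⟩ ψ hψ
  refine ⟨hψ.1, x, ?_⟩
  rw [← blk_eq h0 hx]
  exact cj_blk M hψ x

theorem orb_cj {θ₀ : M → ℂ} (x : X) (θ : M → ℂ) :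
    cj M x θ ∈ orb M (blk O θ₀) ↔ θ ∈ orb M (blk O θ₀) := by
  have key : ∀ (x : X) (θ : M → ℂ), θ ∈ orb M (blk O θ₀) → cj M x θ ∈ orb M (blk O θ₀) := by
    rintro x θ ⟨h1, y, hy⟩
    refine ⟨cj_irr M x h1, x⁻¹ * y, ?_⟩
    rw [← cj_mul, mul_inv_cancel_left]
    exact hy
  refine ⟨fun h => ?_, key x θ⟩
  have := key x⁻¹ _ h
  rwa [← cj_mul, mul_inv_cancel, cj_one] at this

theorem coeff_orb_inv {θ₀ : M → ℂ} (x : X) :
    cj M x (blockCoeff (orb M (blk O θ₀))) = blockCoeff (orb M (blk O θ₀)) := by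
  have hirr : ∀ θ ∈ orb M (blk O θ₀), IsIrr θ := fun θ h => h.1
  have hcl := blockCoeff_cl hirr
  apply eq_of_Om _ hcl
  · intro ψ hψ
    have h1 : Om (cj M x (blockCoeff (orb M (blk O θ₀)))) ψ =
        Om (blockCoeff (orb M (blk O θ₀))) (cj M x⁻¹ ψ) := by
      unfold Om
      rw [cj_at_one]
      congr 1
      refine Fintype.sum_equiv (MulAut.conjNormal x).toEquiv _ _ fun y => ?_
      simp only [cj, MulEquiv.toEquiv_eq_coe, EquivLike.coe_coe]
      congr 2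
      rw [← MulAut.mul_apply, ← map_mul, inv_mul_cancel, map_one, MulAut.one_apply]
    rw [h1, Om_blockCoeff hirr (cj_irr M x⁻¹ hψ), Om_blockCoeff hirr hψ]
    exact if_congr (orb_cj M x⁻¹ ψ) rfl rfl
  · intro g y
    unfold cj
    rw [map_mul, map_mul, map_inv]
    exact hcl _ _

/-- the constituents of the characters in a block of `X` lie in conjugates of one block -/
theorem mem_orb {B : Set (X → ℂ)} (hB : IsBlock O B) {χ₀ χ : X → ℂ} (h0 : χ₀ ∈ B) (h1 : χ ∈ B)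
    {θ₀ θ : M → ℂ} (hθ₀ : IsIrr θ₀) (hθ : IsIrr θ) (m0 : mult M χ₀ θ₀ ≠ 0) (m1 : mult M χ θ ≠ 0) :
    θ ∈ orb M (blk O θ₀) := by
  have hirr : ∀ θ ∈ orb M (blk O θ₀), IsIrr θ := fun θ h => h.1
  have e0 := Om_res M (hB.irr _ h0) hθ₀ m0 (f := blockCoeff (orb M (blk O θ₀)))
    (coeff_orb_inv M)
  have e1 := Om_res M (hB.irr _ h1) hθ m1 (f := blockCoeff (orb M (blk O θ₀)))
    (coeff_orb_inv M)
  have hself : θ₀ ∈ orb M (blk O θ₀) := ⟨hθ₀, 1, by rw [cj_one]; exact mem_blk_self hθ₀⟩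
  rw [Om_blockCoeff hirr hθ₀, if_pos hself] at e0
  rw [Om_blockCoeff hirr hθ] at e1
  by_contra hn
  rw [if_neg hn] at e1
  have h2 := red_Om_eq hB h0 h1 (ext0_cl M (coeff_orb_inv (O := O) (θ₀ := θ₀) M))
    (ext0_mem M (blockCoeff_union (O := O) hirr (orb_closed M hθ₀)))
  rw [← e0, ← e1, red_one, red_zero] at h2
  exact one_ne_zero h2

theorem card_orb {θ₀ : M → ℂ} (h0 : IsIrr θ₀) :
    (fs (orb M (blk O θ₀))).card ≤ M.index * (fs (blk O θ₀)).card := by
  have hirr : ∀ θ ∈ orb M (blk O θ₀), IsIrr θ := fun θ h => h.1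
  have hirr' := (blk_block (O := O) h0).irr
  have hsub : fs (orb M (blk O θ₀)) ⊆
      (Finset.univ : Finset (X ⧸ M)).biUnion fun q => (fs (blk O θ₀)).image (cj M q.out⁻¹) := by
    intro θ hθ
    obtain ⟨h1, x, hx⟩ := (mem_fs hirr).mp hθ
    rw [Finset.mem_biUnion]
    refine ⟨(x : X ⧸ M), Finset.mem_univ _, ?_⟩
    set y := ((x : X ⧸ M)).out with hy
    have h2 : ((y : X) : X ⧸ M) = x := Quotient.out_eq' _
    have h3 : y⁻¹ * x ∈ M := QuotientGroup.eq.mp h2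
    have h4 : cj M x θ = cj M y θ := by
      have e : x = y * (⟨y⁻¹ * x, h3⟩ : M) := by
        change x = y * (y⁻¹ * x)
        rw [mul_inv_cancel_left]
      rw [e, cj_mul, cj_mem_M M (cj_irr M y h1)]
    rw [h4] at hx
    refine Finset.mem_image.mpr ⟨cj M y θ, (mem_fs hirr').mpr hx, ?_⟩
    rw [← cj_mul, mul_inv_cancel, cj_one]
  refine (Finset.card_le_card hsub).trans (Finset.card_biUnion_le.trans ?_)
  refine (Finset.sum_le_card_nsmul _ _ (fs (blk O θ₀)).card fun q _ => Finset.card_image_le).trans ?_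
  rw [Finset.card_univ, smul_eq_mul, Subgroup.index, Nat.card_eq_fintype_card]

/-- the number of characters of a block of `X` in terms of a block of the normal subgroup -/
theorem card_block_le {B : Set (X → ℂ)} (hB : IsBlock O B) {χ₀ : X → ℂ} (h0 : χ₀ ∈ B)
    {θ₀ : M → ℂ} (hθ₀ : IsIrr θ₀) (m0 : mult M χ₀ θ₀ ≠ 0) :
    Nat.card B ≤ M.index ^ 2 * Nat.card (blk O θ₀) := by
  have hirr : ∀ θ ∈ orb M (blk O θ₀), IsIrr θ := fun θ h => h.1
  choose! F hF1 hF2 using fun (χ : X → ℂ) (h : IsIrr χ) => exists_mult M h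
  rw [card_eq_fs hB.irr, card_eq_fs (blk_block (O := O) hθ₀).irr]
  have h1 : (fs B).card ≤ M.index * (fs (orb M (blk O θ₀))).card := by
    refine Finset.card_le_mul_card_image_of_maps_to (f := F) ?_ _ ?_
    · intro χ hχ
      have hχ' := (mem_fs hB.irr).mp hχ
      have hi := hB.irr _ hχ'
      exact (mem_fs hirr).mpr (mem_orb M hB h0 hχ' hθ₀ (hF1 χ hi) m0 (hF2 χ hi))
    · intro θ hθ
      have hθ' := hirr _ ((mem_fs hirr).mp hθ)
      refine le_trans (Finset.card_le_card ?_) (card_over M hθ')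
      intro χ hχ
      obtain ⟨h1, rfl⟩ := Finset.mem_filter.mp hχ
      have hi := hB.irr _ ((mem_fs hB.irr).mp h1)
      exact Finset.mem_filter.mpr ⟨mem_Irr.mpr hi, hF2 χ hi⟩
  calc (fs B).card ≤ M.index * (fs (orb M (blk O θ₀))).card := h1
    _ ≤ M.index * (M.index * (fs (blk O θ₀)).card) := Nat.mul_le_mul_left _ (card_orb M hθ₀)
    _ = M.index ^ 2 * (fs (blk O θ₀)).card := by ring

end cov

end Pool.Agent.K3h3.KB
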