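import Pool.Agent.K3h3.KB.Base
import Pool.Agent.Helper884.IC.Basic

/-!
# Blocks of direct powers
-/

set_option autoImplicit false
set_option linter.unusedSectionVars false
set_option linter.style.haveILetI false

open scoped BigOperators Classical

noncomputable section

namespace Pool.Agent.K3h3.KB

open Pool.Agent.Helper884 Pool.Agent.H254R3.IN Pool.Agent.Q288.MB
open Pool.Agent.Q90.WR (irr_of_norm deg_pos irr_comp B_nat)
open Pool.Agent.Q99.AS (ten ten_irr ten_inj B_ten isConj_prod)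

/-- linear characters are irreducible -/
theorem lin_irr {G : Type} [Group G] [Fintype G] (l : G →* ℂˣ) :
    IsIrr (fun g => ((l g : ℂˣ) : ℂ)) := by
  have e : (fun g => ((l g : ℂˣ) : ℂ)) = (IC.oneRep l).character := by
    funext g
    rw [IC.oneRep_char]
  refine irr_of_norm ?_ ?_ ?_ ⟨1, by simp⟩
  · rw [e]
    exact IC.isClass_char _
  · rintro χ ⟨V, _, _, _, ρ, _, rfl⟩
    obtain ⟨n, hn⟩ := B_nat (IC.oneRep l) ρ
    exact ⟨n, by rw [e, hn]; norm_cast⟩
  · unfold IC.B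
    have h : ∀ g : G, ((l g : ℂˣ) : ℂ) * ((l g⁻¹ : ℂˣ) : ℂ) = 1 := fun g => by
      rw [← Units.val_mul, ← map_mul, mul_inv_cancel, map_one, Units.val_one]
    simp only [h, Finset.sum_const, Finset.card_univ, nsmul_eq_mul, mul_one]
    rw [Nat.card_eq_fintype_card]
    exact inv_mul_cancel₀ (by exact_mod_cast Fintype.card_ne_zero)

section pi

variable {I G : Type} [Group G]

/-- the exterior product of the functions `ψ i` -/
def bt [Fintype I] (ψ : I → G → ℂ) : (I → G) → ℂ := fun g => ∏ i, ψ i (g i)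

/-- the isomorphism of `G ^ (n+1)` with `G × G ^ n` -/
def consE (G : Type) [Group G] (n : ℕ) : (Fin (n + 1) → G) ≃* G × (Fin n → G) where
  toFun g := (g 0, fun i => g i.succ)
  invFun q := Fin.cons q.1 q.2
  left_inv g := by
    funext i
    refine Fin.cases ?_ (fun j => ?_) i
    · rfl
    · rfl
  right_inv q := by
    obtain ⟨a, b⟩ := q
    rfl
  map_mul' g h := rfl

theorem bt_irr_fin [Fintype G] : ∀ (n : ℕ) (ψ : Fin n → G → ℂ), (∀ i, IsIrr (ψ i)) → IsIrr (bt ψ)
  | 0, ψ, _ => by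
    have h := lin_irr (G := Fin 0 → G) 1
    have e : bt ψ = fun g => (((1 : (Fin 0 → G) →* ℂˣ) g : ℂˣ) : ℂ) := by
      funext g
      simp [bt]
    rw [e]
    exact h
  | n + 1, ψ, h => by
    have h1 := bt_irr_fin n (fun i => ψ i.succ) (fun i => h i.succ)
    have h2 := irr_comp (consE G n) (ten_irr (h 0) h1)
    have e : bt ψ = fun g => ten (ψ 0) (bt fun i : Fin n => ψ i.succ) (consE G n g) := by
      funext g
      unfold bt
      rw [Fin.prod_univ_succ]
      rfl
    rw [e]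
    exact h2

/-- reindexing -/
def reE (G : Type) [Group G] {I J : Type} (e : I ≃ J) : (I → G) ≃* (J → G) where
  toFun g := fun j => g (e.symm j)
  invFun g := fun i => g (e i)
  left_inv g := by
    funext i
    simp
  right_inv g := by
    funext i
    simp
  map_mul' g h := rfl

theorem bt_irr [Fintype I] [Fintype G] {ψ : I → G → ℂ} (h : ∀ i, IsIrr (ψ i)) :
    IsIrr (bt ψ) := by
  let e := Fintype.equivFin I
  have h1 := irr_comp (reE G e) (bt_irr_fin _ (fun j => ψ (e.symm j)) fun j => h _)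
  have e1 : bt ψ = fun g => bt (fun j => ψ (e.symm j)) (reE G e g) := by
    funext g
    unfold bt
    exact Fintype.prod_equiv e _ _ fun i => by simp [reE]
  rw [e1]
  exact h1

variable [Fintype I] [Fintype G]

theorem sum_prod_pi (F : I → G → ℂ) : ∑ g : I → G, ∏ i, F i (g i) = ∏ i, ∑ a, F i a := by
  rw [Finset.prod_univ_sum]
  exact Finset.sum_congr (by ext; simp) fun _ _ => rfl

theorem B_bt (ψ φ : I → G → ℂ) : IC.B (bt ψ) (bt φ) = ∏ i, IC.B (ψ i) (φ i) := by
  unfold IC.B bt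
  rw [Finset.prod_mul_distrib, ← sum_prod_pi, Finset.prod_const, Nat.card_fun, inv_pow,
    Nat.cast_pow, Finset.card_univ, Nat.card_eq_fintype_card (α := I)]
  congr 1
  refine Finset.sum_congr rfl fun g _ => ?_
  rw [← Finset.prod_mul_distrib]
  rfl

theorem bt_inj {ψ φ : I → G → ℂ} (h1 : ∀ i, IsIrr (ψ i)) (h2 : ∀ i, IsIrr (φ i))
    (h : bt ψ = bt φ) : ψ = φ := by
  have e := B_bt ψ φ
  rw [← h, IC.B_irr (bt_irr h1) (bt_irr h1), if_pos rfl] at e
  funext i
  by_contra hne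
  have h3 : ∏ i, IC.B (ψ i) (φ i) = 0 := by
    apply Finset.prod_eq_zero (Finset.mem_univ i)
    rw [IC.B_irr (h1 i) (h2 i), if_neg hne]
  rw [h3] at e
  exact one_ne_zero e

/-- the exterior product of sets of characters -/
def btS (b : I → Set (G → ℂ)) : Set ((I → G) → ℂ) := {χ | ∃ ψ : I → G → ℂ, (∀ i, ψ i ∈ b i) ∧ χ = bt ψ}

variable {b : I → Set (G → ℂ)} {O : ValuationSubring ℂ}

theorem btS_irr (hb : ∀ i, ∀ χ ∈ b i, IsIrr χ) : ∀ χ ∈ btS b, IsIrr χ := by
  rintro χ ⟨ψ, h, rfl⟩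
  exact bt_irr fun i => hb i _ (h i)

theorem btS_eq (hb : ∀ i, ∀ χ ∈ b i, IsIrr χ) :
    btS b = bt '' ((Fintype.piFinset fun i => fs (b i) : Finset (I → G → ℂ)) :
      Set (I → G → ℂ)) := by
  ext χ
  constructor
  · rintro ⟨ψ, h, rfl⟩
    exact ⟨ψ, by
      rw [Finset.mem_coe, Fintype.mem_piFinset]
      exact fun i => (mem_fs (hb i)).mpr (h i), rfl⟩
  · rintro ⟨ψ, h, rfl⟩
    rw [Finset.mem_coe, Fintype.mem_piFinset] at h
    exact ⟨ψ, fun i => (mem_fs (hb i)).mp (h i), rfl⟩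

theorem btS_injOn (hb : ∀ i, ∀ χ ∈ b i, IsIrr χ) : Set.InjOn (bt (I := I) (G := G))
    ((Fintype.piFinset fun i => fs (b i) : Finset (I → G → ℂ)) : Set (I → G → ℂ)) := by
  intro ψ h φ h' e
  rw [Finset.mem_coe, Fintype.mem_piFinset] at h h'
  exact bt_inj (fun i => hb i _ ((mem_fs (hb i)).mp (h i)))
    (fun i => hb i _ ((mem_fs (hb i)).mp (h' i))) e

theorem card_btS (hb : ∀ i, ∀ χ ∈ b i, IsIrr χ) : Nat.card (btS b) = ∏ i, Nat.card (b i) := by
  rw [btS_eq hb, card_image_fin _ _ (btS_injOn hb), Fintype.card_piFinset]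
  exact Finset.prod_congr rfl fun i _ => (card_eq_fs (hb i)).symm

theorem blockCoeff_btS (hb : ∀ i, ∀ χ ∈ b i, IsIrr χ) (x : I → G) :
    blockCoeff (btS b) x = ∏ i, blockCoeff (b i) (x i) := by
  rw [btS_eq hb, blockCoeff_image _ _ (btS_injOn hb)]
  simp_rw [fun i => blockCoeff_fs (hb i) (x i)]
  rw [Finset.prod_mul_distrib, Finset.prod_const, Finset.prod_univ_sum, Nat.card_fun,
    Nat.cast_pow, Finset.card_univ, inv_pow, Nat.card_eq_fintype_card (α := I)]
  congr 1
  refine Finset.sum_congr rfl fun ψ _ => ?_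
  unfold bt
  rw [← Finset.prod_mul_distrib]
  rfl

theorem isConj_pi {x y : I → G} : IsConj x y ↔ ∀ i, IsConj (x i) (y i) := by
  constructor
  · intro h i
    obtain ⟨c, hc⟩ := isConj_iff.mp h
    exact isConj_iff.mpr ⟨c i, congrFun hc i⟩
  · intro h
    choose c hc using fun i => isConj_iff.mp (h i)
    exact isConj_iff.mpr ⟨c, funext hc⟩

theorem omega_bt (ψ : I → G → ℂ) (x : I → G) : omega (bt ψ) x = ∏ i, omega (ψ i) (x i) := by
  have h : Nat.card {y : I → G // IsConj x y} = ∏ i, Nat.card {y : G // IsConj (x i) y} := by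
    rw [← Nat.card_pi]
    exact Nat.card_congr
      { toFun := fun y i => ⟨y.1 i, isConj_pi.mp y.2 i⟩
        invFun := fun y => ⟨fun i => (y i).1, isConj_pi.mpr fun i => (y i).2⟩
        left_inv := fun _ => rfl
        right_inv := fun _ => rfl }
  unfold omega
  rw [h, Finset.prod_div_distrib, Finset.prod_mul_distrib]
  simp only [bt, Pi.one_apply]
  push_cast
  rfl

theorem prod_red {ι : Type} (s : Finset ι) (f : ι → ℂ) (h : ∀ i ∈ s, f i ∈ O) :
    (∏ i ∈ s, f i) ∈ O ∧ red O (∏ i ∈ s, f i) = ∏ i ∈ s, red O (f i) := by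
  induction s using Finset.induction_on with
  | empty => exact ⟨by rw [Finset.prod_empty]; exact O.one_mem, by simpa using red_one⟩
  | insert a s ha ih =>
    obtain ⟨h1, h2⟩ := ih fun i hi => h i (Finset.mem_insert_of_mem hi)
    have h3 := h a (Finset.mem_insert_self a s)
    rw [Finset.prod_insert ha, Finset.prod_insert ha]
    exact ⟨O.mul_mem _ _ h3 h1, by rw [red_mul h3 h1, h2]⟩

theorem btS_block (hb : ∀ i, IsBlock O (b i)) : IsBlock O (btS b) := by
  have hi := fun i => (hb i).irr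
  choose θ hθ using fun i => (hb i).nonempty
  refine isBlock_of ⟨_, θ, hθ, rfl⟩ (btS_irr hi) ?_ ?_
  · rintro _ ⟨ψ, a1, rfl⟩ _ ⟨φ, a2, rfl⟩ x
    rw [omega_bt, omega_bt, (prod_red _ _ fun i _ => (hi i _ (a1 i)).omega_mem O _).2,
      (prod_red _ _ fun i _ => (hi i _ (a2 i)).omega_mem O _).2]
    exact Finset.prod_congr rfl fun i _ => (hb i).red_eq (a1 i) (a2 i) _
  · intro x
    rw [blockCoeff_btS hi]
    exact (prod_red _ _ fun i _ => blockCoeff_mem (hb i) _).1

theorem ndeg_bt {ψ : I → G → ℂ} (h : ∀ i, IsIrr (ψ i)) : ndeg (bt ψ) = ∏ i, ndeg (ψ i) := by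
  apply ndeg_eq
  push_cast
  rw [Finset.prod_congr rfl fun i _ => ndeg_cast (h i)]
  rfl

theorem vd_bt {p : ℕ} {ψ : I → G → ℂ} (h : ∀ i, IsIrr (ψ i)) :
    vd p (bt ψ) = ∑ i, vd p (ψ i) := by
  unfold vd
  rw [ndeg_bt h, Nat.factorization_prod fun i _ => (ndeg_pos (h i)).ne', Finsupp.finset_sum_apply]

theorem btS_defect {p : ℕ} (hb : ∀ i, ∀ χ ∈ b i, IsIrr χ) {d : I → ℕ}
    (hd : ∀ i, HasDefect p (b i) (d i)) : HasDefect p (btS b) (∑ i, d i) := by
  have hd' := fun i => (hasDefect_iff (hb i)).mp (hd i)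
  rw [hasDefect_iff (btS_irr hb), Nat.card_fun, Nat.factorization_pow, Finsupp.smul_apply,
    smul_eq_mul]
  have e : ∀ m : ℕ, Nat.card I * m = ∑ _i : I, m := fun m => by
    rw [Finset.sum_const, Finset.card_univ, smul_eq_mul, Nat.card_eq_fintype_card]
  rw [e]
  constructor
  · rintro _ ⟨ψ, h, rfl⟩
    rw [vd_bt fun i => hb i _ (h i), ← Finset.sum_add_distrib]
    exact Finset.sum_le_sum fun i _ => (hd' i).1 _ (h i)
  · choose χ h1 h2 using fun i => (hd' i).2
    refine ⟨_, ⟨χ, h1, rfl⟩, ?_⟩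
    rw [vd_bt fun i => hb i _ (h1 i), ← Finset.sum_add_distrib]
    exact Finset.sum_congr rfl fun i _ => h2 i

end pi

end Pool.Agent.K3h3.KB
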