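import Pool.Agent.K3h3.KB.Cov1
import Pool.Agent.K3h3.KB.Pi

/-!
# Blocks of normal subgroups with abelian quotient
-/

set_option autoImplicit false
set_option linter.unusedSectionVars false
set_option linter.style.haveILetI false

open scoped BigOperators Classical

noncomputable section

namespace Pool.Agent.K3h3.KB

open Pool.Agent.Helper884 Pool.Agent.H254R3.IN Pool.Agent.Q288.MB
open Pool.Agent.Y62 (conv_scalar tw tw_irr omega_tw block_of_red tw_mul tw_one)
open Pool.Agent.Y63.AWC (res cj mult mult_spec res_eq clifford cj_irr cj_mul cj_one res_class B_cj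
  ind_eq mult_cj cj_res)

section dual

variable {A : Type} [CommGroup A] [Finite A]

theorem card_dual : Nat.card (A →* ℂˣ) = Nat.card A :=
  CommGroup.card_monoidHom_of_hasEnoughRootsOfUnity A ℂ

instance dualFintype : Fintype (A →* ℂˣ) :=
  @Fintype.ofFinite _ (Nat.finite_of_card_ne_zero (by rw [card_dual]; exact Nat.card_pos.ne'))

theorem sum_dual (a : A) : ∑ l : A →* ℂˣ, ((l a : ℂˣ) : ℂ) = if a = 1 then (Nat.card A : ℂ) else 0 := by
  by_cases ha : a = 1
  · subst ha
    rw [if_pos rfl, ← card_dual]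
    simp [Nat.card_eq_fintype_card]
  · rw [if_neg ha]
    obtain ⟨μ, hμ⟩ := CommGroup.exists_apply_ne_one_of_hasEnoughRootsOfUnity A ℂ ha
    have h1 : ∑ l : A →* ℂˣ, ((l a : ℂˣ) : ℂ) =
        ((μ a : ℂˣ) : ℂ) * ∑ l : A →* ℂˣ, ((l a : ℂˣ) : ℂ) := by
      rw [Finset.mul_sum]
      refine (Fintype.sum_equiv (Equiv.mulLeft μ) _ _ fun l => ?_).symm
      simp
    have h2 : ((μ a : ℂˣ) : ℂ) ≠ 1 := fun h => hμ (Units.ext h)
    have h3 : (1 - ((μ a : ℂˣ) : ℂ)) * ∑ l : A →* ℂˣ, ((l a : ℂˣ) : ℂ) = 0 := by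
      rw [sub_mul, one_mul, ← h1, sub_self]
    rcases mul_eq_zero.mp h3 with h | h
    · exact absurd (sub_eq_zero.mp h).symm h2
    · exact h

end dual

section twist

variable {G : Type} [Group G] [Fintype G] {O : ValuationSubring ℂ}

/-- the translate of a set of characters by the inverse of a linear character -/
def twS (l : G →* ℂˣ) (B : Set (G → ℂ)) : Set (G → ℂ) := {χ | tw l χ ∈ B}

theorem tw_inv_tw (l : G →* ℂˣ) (χ : G → ℂ) : tw l⁻¹ (tw l χ) = χ := by
  funext x
  unfold tw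
  rw [MonoidHom.inv_apply, ← mul_assoc, ← Units.val_mul, inv_mul_cancel, Units.val_one, one_mul]

theorem tw_tw_inv (l : G →* ℂˣ) (χ : G → ℂ) : tw l (tw l⁻¹ χ) = χ := by
  funext x
  unfold tw
  rw [MonoidHom.inv_apply, ← mul_assoc, ← Units.val_mul, mul_inv_cancel, Units.val_one, one_mul]

theorem twS_irr (l : G →* ℂˣ) {B : Set (G → ℂ)} (hB : ∀ χ ∈ B, IsIrr χ) :
    ∀ χ ∈ twS l B, IsIrr χ := by
  intro χ hχ
  rw [← tw_inv_tw l χ]
  exact tw_irr _ (hB _ hχ)

theorem coeff_twS (l : G →* ℂˣ) {B : Set (G → ℂ)} (hB : ∀ χ ∈ B, IsIrr χ) (x : G) :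
    blockCoeff (twS l B) x = ((l x : ℂˣ) : ℂ) * blockCoeff B x := by
  have e : twS l B = tw l⁻¹ '' (fs B : Set (G → ℂ)) := by
    rw [coe_fs hB]
    ext χ
    constructor
    · intro h
      exact ⟨tw l χ, h, tw_inv_tw l χ⟩
    · rintro ⟨ψ, h, rfl⟩
      change tw l (tw l⁻¹ ψ) ∈ B
      rwa [tw_tw_inv]
  have hinj : Set.InjOn (tw l⁻¹) (fs B : Set (G → ℂ)) := by
    intro χ _ ψ _ h
    rw [← tw_tw_inv l χ, h, tw_tw_inv]
  have h1 : (((l⁻¹ : G →* ℂˣ) x⁻¹ : ℂˣ) : ℂ) = ((l x : ℂˣ) : ℂ) := by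
    rw [MonoidHom.inv_apply, map_inv, inv_inv]
  have h2 : (((l⁻¹ : G →* ℂˣ) 1 : ℂˣ) : ℂ) = 1 := by simp
  have h3 : ∑ χ ∈ fs B, tw l⁻¹ χ 1 * tw l⁻¹ χ x⁻¹ =
      ((l x : ℂˣ) : ℂ) * ∑ χ ∈ fs B, χ 1 * χ x⁻¹ := by
    rw [Finset.mul_sum]
    refine Finset.sum_congr rfl fun χ _ => ?_
    unfold tw
    rw [h1, h2]
    ring
  rw [e, blockCoeff_image _ _ hinj, blockCoeff_fs hB, h3]
  ring

theorem lin_mem (l : G →* ℂˣ) (x : G) : ((l x : ℂˣ) : ℂ) ∈ O := (lin_irr l).val_mem O x

theorem tw_mem_iff {B : Set (G → ℂ)} (hB : IsBlock O B) {χ : G → ℂ} (hχ : χ ∈ B) (l : G →* ℂˣ) :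
    tw l χ ∈ B ↔ ∀ x, red O ((l x : ℂˣ) : ℂ) * red O (omega χ x) = red O (omega χ x) := by
  have hi := hB.irr _ hχ
  have key : ∀ x, red O (omega (tw l χ) x) = red O ((l x : ℂˣ) : ℂ) * red O (omega χ x) := by
    intro x
    rw [omega_tw, red_mul (lin_mem l x) (hi.omega_mem O x)]
  constructor
  · intro h x
    rw [← key, hB.red_eq h hχ]
  · intro h
    refine block_of_red hB hχ (tw_irr l hi) fun x => ?_
    rw [key, h]

end twist

section cov

variable {X : Type} [Group X] [Fintype X] (M : Subgroup X) [hM : M.Normal]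
  {O : ValuationSubring ℂ}

/-- the quotient by a normal subgroup containing the commutator subgroup is abelian -/
abbrev quotComm (hab : commutator X ≤ M) : CommGroup (X ⧸ M) :=
  { (inferInstance : Group (X ⧸ M)) with
    mul_comm := by
      intro a b
      induction a using QuotientGroup.induction_on with
      | H x =>
        induction b using QuotientGroup.induction_on with
        | H y =>
          rw [← QuotientGroup.mk_mul, ← QuotientGroup.mk_mul, QuotientGroup.eq]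
          apply hab
          have h := Subgroup.commutator_mem_commutator (Subgroup.mem_top y⁻¹) (Subgroup.mem_top x⁻¹)
          rw [commutatorElement_def] at h
          rw [commutator_def]
          convert h using 1
          group }

theorem card_tw (hab : commutator X ≤ M) {B : Set (X → ℂ)} (hB : IsBlock O B) {χ : X → ℂ}
    (hχ : χ ∈ B) : ∃ s N : ℕ, s ≠ 0 ∧ M.index = s * N ∧
      (M.index : ℂ) * Om (ext0 M (res M (blockCoeff B))) χ = s := by
  letI : CommGroup (X ⧸ M) := quotComm M hab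
  have hi := hB.irr _ hχ
  let L : ((X ⧸ M) →* ℂˣ) → (X →* ℂˣ) := fun l => l.comp (QuotientGroup.mk' M)
  have hL1 : L 1 = 1 := rfl
  have hLm : ∀ a b, L (a * b) = L a * L b := fun _ _ => rfl
  let H : Subgroup ((X ⧸ M) →* ℂˣ) :=
    { carrier := {l | tw (L l) χ ∈ B}
      one_mem' := by
        change tw (L 1) χ ∈ B
        rw [hL1, tw_one]
        exact hχ
      mul_mem' := by
        intro a b ha hb
        change tw (L (a * b)) χ ∈ B
        have ha' := (tw_mem_iff hB hχ (L a)).mp ha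
        have hb' := (tw_mem_iff hB hχ (L b)).mp hb
        rw [tw_mem_iff hB hχ]
        intro x
        rw [hLm, MonoidHom.mul_apply, Units.val_mul, red_mul (lin_mem _ x) (lin_mem _ x), mul_assoc,
          hb', ha']
      inv_mem' := by
        intro a ha
        change tw (L a⁻¹) χ ∈ B
        have ha' := (tw_mem_iff hB hχ (L a)).mp ha
        rw [tw_mem_iff hB hχ]
        intro x
        have h1 : red O ((L a⁻¹ x : ℂˣ) : ℂ) * red O ((L a x : ℂˣ) : ℂ) = 1 := by
          have h0 : L a⁻¹ x = (L a x)⁻¹ := rfl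
          rw [← red_mul (lin_mem _ x) (lin_mem _ x), h0, ← Units.val_mul,
            inv_mul_cancel, Units.val_one, red_one]
        conv_lhs => rw [← ha' x]
        rw [← mul_assoc, h1, one_mul] }
  have hdvd : Nat.card H ∣ M.index := by
    have h1 := Subgroup.card_subgroup_dvd_card H
    rw [card_dual] at h1
    exact h1
  obtain ⟨N, hN⟩ := hdvd
  refine ⟨Nat.card H, N, Nat.card_pos.ne', hN, ?_⟩
  have h2 : (fun g : X => (M.index : ℂ) * ext0 M (res M (blockCoeff B)) g) =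
      fun g => ∑ l : (X ⧸ M) →* ℂˣ, blockCoeff (twS (L l) B) g := by
    funext g
    simp_rw [coeff_twS _ hB.irr]
    rw [← Finset.sum_mul]
    have h3 := sum_dual (QuotientGroup.mk' M g)
    unfold ext0
    by_cases hg : g ∈ M
    · have h4 : QuotientGroup.mk' M g = 1 := (QuotientGroup.eq_one_iff g).mpr hg
      rw [if_pos h4] at h3
      rw [dif_pos hg]
      change _ = (∑ l : (X ⧸ M) →* ℂˣ, ((l (QuotientGroup.mk' M g) : ℂˣ) : ℂ)) * _
      rw [h3]
      rfl
    · have h4 : QuotientGroup.mk' M g ≠ 1 := fun h => hg ((QuotientGroup.eq_one_iff g).mp h)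
      rw [if_neg h4] at h3
      rw [dif_neg hg, mul_zero]
      change _ = (∑ l : (X ⧸ M) →* ℂˣ, ((l (QuotientGroup.mk' M g) : ℂˣ) : ℂ)) * _
      rw [h3, zero_mul]
  rw [← Om_smul, h2]
  have h5 : Om (fun g => ∑ l : (X ⧸ M) →* ℂˣ, blockCoeff (twS (L l) B) g) χ =
      ∑ l : (X ⧸ M) →* ℂˣ, Om (blockCoeff (twS (L l) B)) χ := by
    unfold Om
    rw [← Finset.sum_div]
    congr 1
    rw [Finset.sum_comm]
    refine Finset.sum_congr rfl fun g _ => ?_
    rw [Finset.sum_mul]
  rw [h5]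
  have h6 : ∀ l : (X ⧸ M) →* ℂˣ, Om (blockCoeff (twS (L l) B)) χ = if l ∈ H then 1 else 0 := by
    intro l
    rw [Om_blockCoeff (twS_irr _ hB.irr) hi]
    rfl
  simp_rw [h6]
  rw [Finset.sum_boole, Nat.card_eq_fintype_card, Fintype.card_subtype]

theorem red_res_ne (hab : commutator X ≤ M) {B : Set (X → ℂ)} (hB : IsBlock O B) {χ : X → ℂ}
    (hχ : χ ∈ B) : red O (Om (ext0 M (res M (blockCoeff B))) χ) ≠ 0 := by
  obtain ⟨s, N, hs, hN, h⟩ := card_tw M hab hB hχ
  have hinv : ∀ x : X, cj M x (res M (blockCoeff B)) = res M (blockCoeff B) :=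
    cj_res M (blockCoeff_cl hB.irr)
  have h1 := (red_Om (O := O) (hB.irr _ hχ) (ext0_cl M hinv)
    (ext0_mem M fun g => blockCoeff_mem hB _)).1
  refine red_ne_zero_of_mul h1 (natCast_mem' N) ?_
  have hs' : (s : ℂ) ≠ 0 := by exact_mod_cast hs
  rw [hN] at h
  push_cast at h
  apply mul_left_cancel₀ hs'
  linear_combination h

/-- every character of a block of the normal subgroup below `B` lies under a character in `B` -/
theorem exists_over (hab : commutator X ≤ M) {B : Set (X → ℂ)} (hB : IsBlock O B) {χ₀ : X → ℂ}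
    (h0 : χ₀ ∈ B) {θ₀ : M → ℂ} (hθ₀ : IsIrr θ₀) (m0 : mult M χ₀ θ₀ ≠ 0) {θ : M → ℂ}
    (hθ : θ ∈ blk O θ₀) : ∃ χ ∈ B, mult M χ θ ≠ 0 := by
  have hinv : ∀ x : X, cj M x (res M (blockCoeff B)) = res M (blockCoeff B) :=
    cj_res M (blockCoeff_cl hB.irr)
  have h1 := red_res_ne M hab hB h0
  rw [← Om_res M (hB.irr _ h0) hθ₀ m0 hinv,
    red_Om_eq (blk_block hθ₀) (mem_blk_self hθ₀) hθ (cl_of_inv M hinv)
      (fun g => blockCoeff_mem hB _)] at h1
  by_contra hcon
  push Not at hcon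
  apply h1
  have h2 : Om (res M (blockCoeff B)) θ = 0 := by
    unfold Om
    have h3 : ∑ g : M, res M (blockCoeff B) g * θ g = 0 := by
      have h4 : ∀ g : M, res M (blockCoeff B) g * θ g =
          ∑ χ ∈ fs B, (Nat.card X : ℂ)⁻¹ * χ 1 * (θ g * res M χ g⁻¹) := by
        intro g
        unfold res
        rw [blockCoeff_fs hB.irr, Finset.mul_sum, Finset.sum_mul]
        refine Finset.sum_congr rfl fun χ _ => ?_
        rw [InvMemClass.coe_inv]
        ring
      simp_rw [h4]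
      rw [Finset.sum_comm]
      refine Finset.sum_eq_zero fun χ hχ => ?_
      rw [← Finset.mul_sum]
      have hχ' := (mem_fs hB.irr).mp hχ
      have h5 : IC.B θ (res M χ) = 0 := by
        rw [IC.B_comm, mult_spec M (hB.irr _ hχ') hθ.1, hcon χ hχ', Nat.cast_zero]
      unfold IC.B at h5
      rcases mul_eq_zero.mp h5 with h6 | h6
      · exact absurd h6 (inv_ne_zero (IC.cardG_ne (G := M)))
      · rw [h6, mul_zero]
    rw [h3, zero_div]
  rw [h2, red_zero]

variable {p : ℕ} [hp : Fact p.Prime]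

/-- **Abelian quotients.** A block of `X` and a block below it of a normal subgroup with abelian
quotient of order `m`. -/
theorem exists_below (hpO : (p : ℂ) ∈ O.nonunits) (hab : commutator X ≤ M) {B : Set (X → ℂ)}
    (hB : IsBlock O B) {d : ℕ} (hd : HasDefect p B d) :
    ∃ b : Set (M → ℂ), IsBlock O b ∧ ∃ d' : ℕ, HasDefect p b d' ∧
      Nat.card B ≤ M.index ^ 2 * Nat.card b ∧ p ^ d' ≤ M.index * p ^ d := by
  obtain ⟨χ₀, h0⟩ := hB.nonempty
  obtain ⟨θ₀, hθ₀, m0⟩ := exists_mult M (hB.irr _ h0)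
  have hb : IsBlock O (blk O θ₀) := blk_block hθ₀
  obtain ⟨d', hd'⟩ := exists_defect hpO hb
  refine ⟨blk O θ₀, hb, d', hd', card_block_le M hB h0 hθ₀ m0, ?_⟩
  obtain ⟨-, θ, hθ, h1⟩ := (hasDefect_iff hb.irr).mp hd'
  obtain ⟨χ, hχ, hm⟩ := exists_over M hab hB h0 hθ₀ m0 hθ
  have h2 := ((hasDefect_iff hB.irr).mp hd).1 χ hχ
  obtain ⟨c, hc0, hc1, hc2⟩ := deg_over M (hB.irr _ hχ) hθ.1 hm
  have h3 : vd p χ = c.factorization p + vd p θ := by
    unfold vd
    rw [hc2, Nat.factorization_mul hc0.ne' (ndeg_pos hθ.1).ne']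
    rfl
  have h4 : (Nat.card X).factorization p = (Nat.card M).factorization p +
      M.index.factorization p := by
    rw [← M.card_mul_index, Nat.factorization_mul Nat.card_pos.ne'
      Subgroup.index_ne_zero_of_finite]
    rfl
  have h5 : d' ≤ c.factorization p + d := by omega
  have h6 : p ^ c.factorization p ≤ c := Nat.ordProj_le p hc0.ne'
  calc p ^ d' ≤ p ^ (c.factorization p + d) := Nat.pow_le_pow_right hp.out.pos h5
    _ = p ^ c.factorization p * p ^ d := pow_add _ _ _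
    _ ≤ M.index * p ^ d := Nat.mul_le_mul_right _ (h6.trans hc1)

end cov

end Pool.Agent.K3h3.KB
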