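import Pool.Agent.K3h3.KB.Perf

/-!
# The equivalence
-/

set_option autoImplicit false
set_option linter.unusedSectionVars false
set_option linter.style.haveILetI false

open scoped BigOperators Classical

noncomputable section

namespace Pool.Agent.K3h3.KB

open Pool.Agent.Helper884 Pool.Agent.H254R3.IN Pool.Agent.Q288.MB SemidirectProduct

/-- an exponential beats a polynomial -/
theorem exists_exp {k D c : ℕ} (hD : 0 < D) (hk : D < k) : ∃ N₀ : ℕ, ∀ r, N₀ ≤ r →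
    (c * r) ^ 3 * D ^ r < k ^ r := by
  have h1 : (1 : ℝ) < (k : ℝ) / D := by
    rw [one_lt_div (by exact_mod_cast hD)]
    exact_mod_cast hk
  have h2 := tendsto_pow_const_div_const_pow_of_one_lt 3 h1
  have h3 : (0 : ℝ) < 1 / ((c : ℝ) ^ 3 + 1) := by positivity
  obtain ⟨N₀, hN⟩ := Filter.eventually_atTop.mp (h2.eventually (gt_mem_nhds h3))
  refine ⟨N₀, fun r hr => ?_⟩
  have h4 := hN r hr
  have hD' : (0 : ℝ) < D := by exact_mod_cast hD
  have h5 : (0 : ℝ) < ((k : ℝ) / D) ^ r := by positivity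
  rw [div_lt_div_iff₀ h5 (by positivity), one_mul, div_pow, lt_div_iff₀ (by positivity)] at h4
  have h6 : ((c * r : ℕ) : ℝ) ^ 3 * (D : ℝ) ^ r ≤ (r : ℝ) ^ 3 * ((c : ℝ) ^ 3 + 1) * (D : ℝ) ^ r := by
    push_cast
    apply mul_le_mul_of_nonneg_right _ (by positivity)
    nlinarith [show (0 : ℝ) ≤ (r : ℝ) ^ 3 by positivity]
  have h7 := h6.trans_lt h4
  exact_mod_cast h7

/-- small powers -/
theorem exists_eps {k D n : ℕ} (hD : 0 < D) (hk : D < k) (hn : 1 ≤ n) : ∃ ε : ℝ, 0 < ε ∧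
    ∀ C : ℝ, ∃ t : ℕ, C * (D ^ t : ℕ) * ((n ^ t : ℕ) : ℝ) ^ ε < ((k ^ t : ℕ) : ℝ) := by
  set ρ : ℝ := (k : ℝ) / D with hρ
  have hD' : (0 : ℝ) < D := by exact_mod_cast hD
  have h1 : (1 : ℝ) < ρ := by
    rw [hρ, one_lt_div hD']
    exact_mod_cast hk
  have hn0 : (0 : ℝ) < n := by exact_mod_cast (show 0 < n by omega)
  have hln : 0 ≤ Real.log n := Real.log_nonneg (by exact_mod_cast hn)
  have hlr : 0 < Real.log ρ := Real.log_pos h1
  have hρ0 : 0 < ρ := by linarith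
  refine ⟨Real.log ρ / (2 * (Real.log n + 1)), by positivity, fun C => ?_⟩
  set ε := Real.log ρ / (2 * (Real.log n + 1)) with hε
  have h2 : (n : ℝ) ^ ε ≤ Real.exp (Real.log ρ / 2) := by
    rw [Real.rpow_def_of_pos hn0]
    apply Real.exp_le_exp.mpr
    rw [hε, mul_div_assoc', div_le_div_iff₀ (by positivity) (by norm_num)]
    nlinarith
  set s := Real.exp (Real.log ρ / 2) with hs
  have hss : s * s = ρ := by
    rw [hs, ← Real.exp_add, add_halves, Real.exp_log hρ0]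
  have hs1 : 1 < s := by
    rw [hs]
    exact Real.one_lt_exp_iff.mpr (by positivity)
  obtain ⟨t, ht⟩ := pow_unbounded_of_one_lt (max C 1) hs1
  refine ⟨t, ?_⟩
  have h3 : (((n ^ t : ℕ) : ℝ)) ^ ε = ((n : ℝ) ^ ε) ^ t := by
    push_cast
    rw [← Real.rpow_natCast ((n : ℝ) ^ ε), ← Real.rpow_mul hn0.le, mul_comm ε,
      Real.rpow_mul hn0.le, Real.rpow_natCast]
  have h4 : ((n : ℝ) ^ ε) ^ t ≤ s ^ t := pow_le_pow_left₀ (Real.rpow_nonneg hn0.le _) h2 _
  have h5 : (k : ℝ) = ρ * D := by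
    rw [hρ, div_mul_cancel₀ _ hD'.ne']
  rw [h3]
  push_cast
  rw [h5, mul_pow, ← hss, mul_pow]
  have hst : 0 < s ^ t := by positivity
  have hDt : 0 < (D : ℝ) ^ t := by positivity
  calc C * (D : ℝ) ^ t * ((n : ℝ) ^ ε) ^ t ≤ max C 1 * (D : ℝ) ^ t * ((n : ℝ) ^ ε) ^ t := by
        gcongr
        exact le_max_left _ _
    _ ≤ max C 1 * (D : ℝ) ^ t * s ^ t := by gcongr
    _ < s ^ t * (D : ℝ) ^ t * s ^ t := by gcongr
    _ = s ^ t * s ^ t * (D : ℝ) ^ t := by ring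

variable {p : ℕ} [hp : Fact p.Prime] {O : ValuationSubring ℂ}

/-- powers of a block -/
theorem exists_power {X : Type} [Group X] [Finite X] (hX : commutator X = ⊤) {Q : Type} [Group Q]
    (hQ : GenBy Q X) {B : Set (X → ℂ)}
    (hB : IsBlock O B) (hs : ∀ σ : ℂ ≃+* ℂ, gal σ B = B) {d : ℕ} (hd : HasDefect p B d) (t : ℕ) :
    ∃ B' : Set ((Fin t → X) → ℂ), commutator (Fin t → X) = ⊤ ∧ GenBy Q (Fin t → X) ∧
      IsBlock O B' ∧ (∀ σ : ℂ ≃+* ℂ, gal σ B' = B') ∧ HasDefect p B' (t * d) ∧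
      Nat.card B' = Nat.card B ^ t := by
  have := Fintype.ofFinite X
  refine ⟨btS fun _ => B, perf_pi hX, gen_pi hQ, btS_block fun _ => hB, fun σ => ?_, ?_, ?_⟩
  · rw [gal_btS]
    simp only [hs]
  · have h := btS_defect (I := Fin t) (fun _ => hB.irr) (fun _ => hd)
    simpa using h
  · rw [card_btS fun _ => hB.irr]
    simp

/-- a violation of the inequality gives one for a stable block of a perfect group -/
theorem exists_violation (hpO : (p : ℂ) ∈ O.nonunits) (Q : Type) [Group Q] [Finite Q]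
    [Nontrivial Q] {G : Type} [Group G] [Finite G]
    {B : Set (G → ℂ)} (hB : IsBlock O B) {d : ℕ} (hd : HasDefect p B d)
    (hv : p ^ d < Nat.card B) :
    ∃ (X : Type) (_ : Group X) (_ : Finite X) (B' : Set (X → ℂ)) (d' : ℕ), commutator X = ⊤ ∧
      GenBy Q X ∧ IsBlock O B' ∧ (∀ σ : ℂ ≃+* ℂ, gal σ B' = B') ∧ HasDefect p B' d' ∧
      p ^ d' < Nat.card B' := by
  obtain ⟨N₀, hN⟩ := exists_exp (c := Nat.card G) (pow_pos hp.out.pos d) hv
  set r := p * (N₀ + 5 + 2 * Nat.card Q) + 1 with hr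
  have hp1 := hp.out.pos
  have hr0 : N₀ + 5 + 2 * Nat.card Q ≤ r := by nlinarith
  have hpr : ¬ p ∣ r := by
    intro h
    have h1 : p ∣ 1 := (Nat.dvd_add_right (Dvd.intro _ rfl)).mp h
    exact hp.out.one_lt.ne' (Nat.dvd_one.mp h1)
  obtain ⟨K, _, _, b, d', hK, hKQ, hb, hd', h1, h2⟩ := exists_perfect hpO hB hd (by omega) hpr
  have h3 := hN r (by omega)
  have h4 : p ^ d' < Nat.card b := by
    by_contra hcon
    push Not at hcon
    have h5 : Nat.card B ^ r ≤ (Nat.card G * r) ^ 3 * (p ^ d) ^ r := by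
      calc Nat.card B ^ r ≤ (Nat.card G * r) ^ 2 * Nat.card b := h1
        _ ≤ (Nat.card G * r) ^ 2 * p ^ d' := Nat.mul_le_mul_left _ hcon
        _ ≤ (Nat.card G * r) ^ 2 * ((Nat.card G * r) * p ^ (r * d)) := Nat.mul_le_mul_left _ h2
        _ = (Nat.card G * r) ^ 3 * (p ^ d) ^ r := by
          rw [← pow_mul, mul_comm r d]
          ring
    omega
  obtain ⟨X, iX, fX, B', N, hX, hXQ, hB', hs, hN1, hcard, hdef⟩ :=
    exists_stable hK Q (hKQ Q (by omega)) hb hd'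
  refine ⟨X, iX, fX, B', N * d', hX, hXQ, hB', hs, hdef, ?_⟩
  rw [hcard, mul_comm, pow_mul]
  exact Nat.pow_lt_pow_left h4 (by omega)

theorem equivalence (hpO : (p : ℂ) ∈ O.nonunits) (Q : Type) [Group Q] [Finite Q]
    [Nontrivial Q] :
    (∀ (G : Type) [Group G] [Finite G] (B : Set (G → ℂ)) (d : ℕ), IsBlock O B →
        HasDefect p B d → Nat.card B ≤ p ^ d) ↔
      ∀ ε : ℝ, 0 < ε → ∃ C : ℝ, ∀ (X : Type) [Group X] [Finite X] (B : Set (X → ℂ)) (d : ℕ),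
        commutator X = ⊤ → GenBy Q X → IsBlock O B → (∀ σ : ℂ ≃+* ℂ, gal σ B = B) →
        HasDefect p B d → (Nat.card B : ℝ) ≤ C * (p ^ d : ℕ) * (Nat.card X : ℝ) ^ ε := by
  constructor
  · intro h ε hε
    refine ⟨1, fun X _ _ B d _ _ hB _ hd => ?_⟩
    have h1 := h X B d hB hd
    have h2 : (1 : ℝ) ≤ (Nat.card X : ℝ) ^ ε := by
      apply Real.one_le_rpow _ hε.le
      exact_mod_cast Nat.card_pos
    have h3 : (Nat.card B : ℝ) ≤ (p ^ d : ℕ) := by exact_mod_cast h1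
    rw [one_mul]
    calc (Nat.card B : ℝ) ≤ (p ^ d : ℕ) * 1 := by rw [mul_one]; exact h3
      _ ≤ (p ^ d : ℕ) * (Nat.card X : ℝ) ^ ε := by gcongr
  · intro h G _ _ B d hB hd
    by_contra hv
    push Not at hv
    obtain ⟨X, _, _, B', d', hX, hXQ, hB', hs, hd', hv'⟩ := exists_violation hpO Q hB hd hv
    obtain ⟨ε, hε, h1⟩ := exists_eps (n := Nat.card X) (pow_pos hp.out.pos d') hv' Nat.card_pos
    obtain ⟨C, hC⟩ := h ε hε
    obtain ⟨t, ht⟩ := h1 C
    obtain ⟨B'', a1, a0, a2, a3, a4, a5⟩ := exists_power hX hXQ hB' hs hd' t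
    have h2 := hC (Fin t → X) B'' (t * d') a1 a0 a2 a3 a4
    rw [a5, Nat.card_fun, Nat.card_eq_fintype_card (α := Fin t), Fintype.card_fin, mul_comm t d',
      pow_mul] at h2
    exact absurd h2 (not_le.mpr ht)

end Pool.Agent.K3h3.KB
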