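import Pool.Agent.K3h3.KB.Wr

/-!
# Groups generated by their subgroups isomorphic to a given group
-/

set_option autoImplicit false
set_option linter.unusedSectionVars false
set_option linter.style.haveILetI false

open scoped BigOperators Classical

noncomputable section

namespace Pool.Agent.K3h3.KB

open SemidirectProduct

/-- `X` is generated by its subgroups isomorphic to `Q`. -/
def GenBy (Q X : Type) [Group Q] [Group X] : Prop :=
  sSup {H : Subgroup X | Nonempty (H ≃* Q)} = ⊤

section

variable {Q G H : Type} [Group Q] [Group G] [Group H]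

theorem map_gen_le {A : Type} [Group A] (f : A →* G) (hf : Function.Injective f) :
    sSup {H : Subgroup A | Nonempty (H ≃* Q)} ≤
      (sSup {H : Subgroup G | Nonempty (H ≃* Q)}).comap f := by
  apply sSup_le
  rintro H ⟨e⟩
  rw [← Subgroup.map_le_iff_le_comap]
  apply le_sSup
  exact ⟨(H.equivMapOfInjective f hf).symm.trans e⟩

theorem mem_gen_of_hom {A : Type} [Group A] (f : A →* G) (hf : Function.Injective f)
    (hA : GenBy Q A) (a : A) : f a ∈ sSup {H : Subgroup G | Nonempty (H ≃* Q)} := by
  have h1 : a ∈ sSup {H : Subgroup A | Nonempty (H ≃* Q)} := by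
    rw [hA]
    exact Subgroup.mem_top _
  exact map_gen_le f hf h1

theorem gen_prod (h1 : GenBy Q G) (h2 : GenBy Q H) : GenBy Q (G × H) := by
  unfold GenBy
  rw [eq_top_iff]
  rintro ⟨a, b⟩ _
  have e : (a, b) = MonoidHom.inl G H a * MonoidHom.inr G H b := by simp
  rw [e]
  refine Subgroup.mul_mem _ (mem_gen_of_hom _ ?_ h1 _) (mem_gen_of_hom _ ?_ h2 _)
  · intro x y h
    exact congrArg Prod.fst h
  · intro x y h
    exact congrArg Prod.snd h

theorem gen_pi {I : Type} [Finite I] (h : GenBy Q G) : GenBy Q (I → G) := by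
  unfold GenBy
  rw [eq_top_iff]
  intro x _
  apply Subgroup.pi_mem_of_mulSingle_mem
  intro i
  refine mem_gen_of_hom (MonoidHom.mulSingle (fun _ : I => G) i) ?_ h (x i)
  intro a b hab
  have := congrFun hab i
  simpa using this

theorem gen_sd {N T : Type} [Group N] [Group T] {φ : T →* MulAut N} (h1 : GenBy Q N)
    (h2 : GenBy Q T) : GenBy Q (N ⋊[φ] T) := by
  unfold GenBy
  rw [eq_top_iff]
  intro x _
  rw [← inl_left_mul_inr_right x]
  exact Subgroup.mul_mem _ (mem_gen_of_hom _ inl_injective h1 _)
    (mem_gen_of_hom _ inr_injective h2 _)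

/-- the subgroup generated by the copies of `Q` is invariant under automorphisms -/
theorem gen_equiv (e : G ≃* H) (x : G) :
    e x ∈ sSup {K : Subgroup H | Nonempty (K ≃* Q)} ↔
      x ∈ sSup {K : Subgroup G | Nonempty (K ≃* Q)} := by
  constructor
  · intro h
    have h1 := map_gen_le (Q := Q) (e.symm : H →* G) e.symm.injective h
    simpa using h1
  · intro h
    exact map_gen_le (Q := Q) (e : G →* H) e.injective h

/-- a permutation group of degree `n` embeds into the alternating group of degree at least `2n` -/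
theorem exists_embed [Finite Q] {I : Type} [Fintype I] (hI : 2 * Nat.card Q ≤ Nat.card I) :
    ∃ f : Q →* alternatingGroup I, Function.Injective f := by
  have := Fintype.ofFinite Q
  have h1 : Fintype.card (Q ⊕ Q) ≤ Fintype.card I := by
    rw [Fintype.card_sum, ← Nat.card_eq_fintype_card, ← Nat.card_eq_fintype_card]
    omega
  obtain ⟨ι⟩ := Function.Embedding.nonempty_of_card_le h1
  let f0 : Q →* Equiv.Perm I :=
    { toFun := fun q => Equiv.Perm.viaEmbeddingHom ι
        (Equiv.Perm.sumCongr (Equiv.mulLeft q) (Equiv.mulLeft q))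
      map_one' := by
        have : (Equiv.Perm.sumCongr (Equiv.mulLeft (1 : Q)) (Equiv.mulLeft (1 : Q))) = 1 := by
          ext x
          rcases x with x | x <;> simp
        rw [this, map_one]
      map_mul' := fun a b => by
        rw [← map_mul]
        congr 1
        ext x
        rcases x with x | x <;> simp }
  have hf0 : ∀ q, f0 q ∈ alternatingGroup I := by
    intro q
    rw [Equiv.Perm.mem_alternatingGroup]
    have h := @Equiv.Perm.sign_extendDomain (Q ⊕ Q) _ I _ _ _
      (Equiv.Perm.sumCongr (Equiv.mulLeft q) (Equiv.mulLeft q)) (· ∈ Set.range ι)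
      (fun a => Classical.propDecidable _) (Equiv.ofInjective ι.1 ι.2)
    refine h.trans ?_
    rw [Equiv.Perm.sign_sumCongr]
    exact Int.units_mul_self _
  refine ⟨f0.codRestrict (alternatingGroup I) hf0, ?_⟩
  intro a b h
  have h1 : f0 a = f0 b := congrArg Subtype.val h
  have h2 := Equiv.Perm.viaEmbeddingHom_injective ι h1
  have h3 := congrArg (fun e : Equiv.Perm (Q ⊕ Q) => e (Sum.inl 1)) h2
  simpa using h3

theorem gen_alt [Finite Q] [Nontrivial Q] {I : Type} [Fintype I] (hI : 5 ≤ Nat.card I)
    (hQ : 2 * Nat.card Q ≤ Nat.card I) : GenBy Q (alternatingGroup I) := by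
  have hs : IsSimpleGroup (alternatingGroup I) := alternatingGroup.isSimpleGroup hI
  obtain ⟨f, hf⟩ := exists_embed (Q := Q) hQ
  have hn : (sSup {H : Subgroup (alternatingGroup I) | Nonempty (H ≃* Q)}).Normal := by
    refine ⟨fun n hn g => ?_⟩
    have := (gen_equiv (Q := Q) (MulAut.conj g) n).mpr hn
    simpa using this
  rcases hn.eq_bot_or_eq_top with h | h
  · exfalso
    obtain ⟨q, hq⟩ := exists_ne (1 : Q)
    have h1 : f q ∈ sSup {H : Subgroup (alternatingGroup I) | Nonempty (H ≃* Q)} := by
      have h2 : f.range ≤ sSup {H : Subgroup (alternatingGroup I) | Nonempty (H ≃* Q)} :=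
        le_sSup ⟨(MonoidHom.ofInjective hf).symm⟩
      exact h2 ⟨q, rfl⟩
    rw [h, Subgroup.mem_bot] at h1
    exact hq (hf (h1.trans (map_one f).symm))
  · exact h

end

end Pool.Agent.K3h3.KB
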