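import Pool.Agent.K3h3.KB.Gen

/-!
# From blocks of perfect groups to Galois-stable blocks of perfect groups
-/

set_option autoImplicit false
set_option linter.unusedSectionVars false
set_option linter.style.haveILetI false

open scoped BigOperators Classical

noncomputable section

namespace Pool.Agent.K3h3.KB

open Pool.Agent.Helper884 Pool.Agent.H254R3.IN Pool.Agent.Q288.MB SemidirectProduct
open Pool.Agent.Q90.WR (irr_of_norm deg_pos irr_comp B_nat irr_gal)
open Pool.Agent.Q99.AS (ten ten_irr ten_inj B_ten isConj_prod)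

theorem sign_prodCongr_self {L : Type} [Fintype L] [DecidableEq L] (ρ : Equiv.Perm L) :
    Equiv.Perm.sign (Equiv.prodCongr ρ ρ : Equiv.Perm (L × L)) = 1 := by
  have e : (Equiv.prodCongr ρ ρ : Equiv.Perm (L × L)) =
      Equiv.prodCongrRight (fun _ => ρ) * Equiv.prodCongrLeft (fun _ => ρ) := by
    ext x <;> simp
  rw [e, Equiv.Perm.sign_mul, Equiv.Perm.sign_prodCongrRight, Equiv.Perm.sign_prodCongrLeft,
    ← Finset.prod_mul_distrib]
  refine Finset.prod_eq_one fun i _ => ?_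
  exact Int.units_mul_self _

theorem mem_alt_self {L : Type} [Fintype L] {inst : DecidableEq (L × L)} (ρ : Equiv.Perm L) :
    (Equiv.prodCongr ρ ρ : Equiv.Perm (L × L)) ∈ alternatingGroup (L × L) := by
  have : inst = instDecidableEqProd := Subsingleton.elim _ _
  subst this
  exact Equiv.Perm.mem_alternatingGroup.mpr (sign_prodCongr_self ρ)

section

variable {G H : Type} [Group G] [Group H] [Fintype G] [Fintype H] {O : ValuationSubring ℂ}

theorem block_eq_of_mem {B₁ B₂ : Set (G → ℂ)} (h1 : IsBlock O B₁) (h2 : IsBlock O B₂)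
    {χ : G → ℂ} (m1 : χ ∈ B₁) (m2 : χ ∈ B₂) : B₁ = B₂ := by
  by_contra h
  exact Set.disjoint_left.mp (block_disjoint h1 h2 h) m1 m2

theorem tenS_inj {B₁ B₁' : Set (G → ℂ)} {B₂ B₂' : Set (H → ℂ)} (h1 : IsBlock O B₁)
    (h1' : IsBlock O B₁') (h2 : IsBlock O B₂) (h2' : IsBlock O B₂')
    (h : tenS B₁ B₂ = tenS B₁' B₂') : B₁ = B₁' ∧ B₂ = B₂' := by
  obtain ⟨θ, hθ⟩ := h1.nonempty
  obtain ⟨ψ, hψ⟩ := h2.nonempty
  have h3 : ten θ ψ ∈ tenS B₁' B₂' := by
    rw [← h]
    exact ⟨θ, hθ, ψ, hψ, rfl⟩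
  obtain ⟨θ', a, ψ', b, e⟩ := h3
  obtain ⟨rfl, rfl⟩ := ten_inj (h1.irr _ hθ) (h2.irr _ hψ) (h1'.irr _ a) (h2'.irr _ b) e
  exact ⟨block_eq_of_mem h1 h1' hθ a, block_eq_of_mem h2 h2' hψ b⟩

theorem gal_hasDefect {p : ℕ} (σ : ℂ ≃+* ℂ) {B : Set (G → ℂ)} (hB : ∀ χ ∈ B, IsIrr χ) {d : ℕ}
    (hd : HasDefect p B d) : HasDefect p (gal σ B) d := by
  have hv : ∀ ψ : G → ℂ, IsIrr ψ → vd p (fun g => σ (ψ g)) = vd p ψ := by
    intro ψ hψ
    have e : ndeg (fun g => σ (ψ g)) = ndeg ψ := by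
      apply ndeg_eq
      change _ = σ (ψ 1)
      rw [← ndeg_cast hψ, map_natCast]
    unfold vd
    rw [e]
  rw [hasDefect_iff hB] at hd
  rw [hasDefect_iff (gal_irr hB)]
  obtain ⟨h1, θ₀, h0, h2⟩ := hd
  refine ⟨?_, _, ⟨θ₀, h0, rfl⟩, ?_⟩
  · rintro _ ⟨ψ, h, rfl⟩
    rw [hv ψ (hB _ h)]
    exact h1 ψ h
  · rw [hv θ₀ (hB _ h0)]
    exact h2

end

variable {p : ℕ} {O : ValuationSubring ℂ}

/-- the action of a field automorphism on the conjugates of `B` -/
def cperm {G : Type} (B : Set (G → ℂ)) (σ : ℂ ≃+* ℂ) : Equiv.Perm (conjs B) where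
  toFun C := ⟨gal σ C.1, by
    obtain ⟨τ, hτ⟩ := C.2
    exact ⟨σ * τ, by rw [hτ, gal_mul]⟩⟩
  invFun C := ⟨gal σ.symm C.1, by
    obtain ⟨τ, hτ⟩ := C.2
    exact ⟨σ.symm * τ, by rw [hτ, gal_mul]⟩⟩
  left_inv C := by
    apply Subtype.ext
    change gal σ.symm (gal σ C.1) = C.1
    rw [← gal_mul]
    have : σ.symm * σ = 1 := by
      ext z
      exact σ.symm_apply_apply z
    rw [this, gal_refl]
  right_inv C := by
    apply Subtype.ext
    change gal σ (gal σ.symm C.1) = C.1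
    rw [← gal_mul]
    have : σ * σ.symm = 1 := by
      ext z
      exact σ.apply_symm_apply z
    rw [this, gal_refl]

theorem btS_inj {G I : Type} [Group G] [Fintype G] [Fintype I] {b b' : I → Set (G → ℂ)}
    (hb : ∀ i, IsBlock O (b i)) (hb' : ∀ i, IsBlock O (b' i)) (h : btS b = btS b') : b = b' := by
  choose θ hθ using fun i => (hb i).nonempty
  have h1 : bt θ ∈ btS b' := by
    rw [← h]
    exact ⟨θ, hθ, rfl⟩
  obtain ⟨ψ, hψ, e⟩ := h1
  have e1 := bt_inj (fun i => (hb i).irr _ (hθ i)) (fun i => (hb' i).irr _ (hψ i)) e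
  subst e1
  funext i
  exact block_eq_of_mem (hb i) (hb' i) (hθ i) (hψ i)

theorem stable_aux {G I : Type} [Group G] [Fintype G] [Fintype I] (Q : Type)
    [Group Q] [Finite Q] [Nontrivial Q] (hI : 5 ≤ Nat.card I) (hIQ : 2 * Nat.card Q ≤ Nat.card I)
    (hG : commutator G = ⊤) (hQ : GenBy Q G) {b : I → Set (G → ℂ)} (hb : ∀ i, IsBlock O (b i))
    (hinj : Function.Injective b) {k d : ℕ} (hk : ∀ i, Nat.card (b i) = k)
    (hd : ∀ i, HasDefect p (b i) d)
    (hgal : ∀ σ : ℂ ≃+* ℂ, ∃ s ∈ alternatingGroup I, ∀ i, gal σ (b i) = b (s i)) :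
    ∃ (X : Type) (_ : Group X) (_ : Finite X) (B : Set (X → ℂ)), commutator X = ⊤ ∧
      GenBy Q X ∧ IsBlock O B ∧ (∀ σ : ℂ ≃+* ℂ, gal σ B = B) ∧
      Nat.card B = k ^ Nat.card I ∧ HasDefect p B (Nat.card I * d) := by
  refine ⟨(I → G) ⋊[pAct G (alternatingGroup I)] (alternatingGroup I), inferInstance,
    inferInstance, wrS (alternatingGroup I) b, ?_, ?_, wrS_block _ hb hinj, ?_, ?_, ?_⟩
  · exact perf_sd (perf_pi hG) (commutator_alternatingGroup_eq_top hI)
  · exact gen_sd (gen_pi hQ) (gen_alt hI hIQ)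
  · intro σ
    obtain ⟨s, hs, h⟩ := hgal σ
    exact wrS_stable (alternatingGroup I) σ ⟨s, hs⟩ h
  · rw [card_wrS _ hb hinj, Finset.prod_congr rfl fun i _ => hk i, Finset.prod_const,
      Finset.card_univ, Nat.card_eq_fintype_card]
  · have h2 := wrS_defect (alternatingGroup I) hb hinj hd
    rwa [Finset.sum_const, Finset.card_univ, smul_eq_mul, ← Nat.card_eq_fintype_card] at h2

/-- **Stable blocks.** -/
theorem exists_stable {K : Type} [Group K] [Finite K] (hK : commutator K = ⊤) (Q : Type)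
    [Group Q] [Finite Q] [Nontrivial Q] (hQ : GenBy Q K)
    {b : Set (K → ℂ)} (hb : IsBlock O b) {d : ℕ} (hd : HasDefect p b d) :
    ∃ (X : Type) (_ : Group X) (_ : Finite X) (B : Set (X → ℂ)) (N : ℕ), commutator X = ⊤ ∧
      GenBy Q X ∧ IsBlock O B ∧ (∀ σ : ℂ ≃+* ℂ, gal σ B = B) ∧ 1 ≤ N ∧
      Nat.card B = Nat.card b ^ N ∧ HasDefect p B (N * d) := by
  have := Fintype.ofFinite K
  by_cases hst : ∀ σ : ℂ ≃+* ℂ, gal σ b = b
  · exact ⟨K, inferInstance, inferInstance, b, 1, hK, hQ, hb, hst, le_refl 1, by rw [pow_one], by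
      rwa [one_mul]⟩
  push Not at hst
  obtain ⟨σ₀, hσ₀⟩ := hst
  have hfin : Finite (conjs b) := conjs_finite hb.irr
  have hft : Fintype (conjs b) := Fintype.ofFinite _
  have hJ : 2 ≤ Nat.card (conjs b) := by
    have h1 : Nontrivial (conjs b) :=
      ⟨⟨b, mem_conjs_self b⟩, ⟨gal σ₀ b, σ₀, rfl⟩, fun h => hσ₀ (congrArg Subtype.val h).symm⟩
    exact Finite.one_lt_card
  have hblk : ∀ j : conjs b, IsBlock O j.1 := by
    rintro ⟨_, σ, rfl⟩
    exact gal_block σ hb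
  have hcard : ∀ j : conjs b, Nat.card j.1 = Nat.card b := by
    rintro ⟨_, σ, rfl⟩
    exact card_gal σ b
  have hdef : ∀ j : conjs b, HasDefect p j.1 d := by
    rintro ⟨_, σ, rfl⟩
    exact gal_hasDefect σ hb.irr hd
  obtain ⟨t, ht⟩ : ∃ t : ℕ, t = Nat.card Q + 2 := ⟨_, rfl⟩
  let bL : (Fin t → conjs b) → Set ((Fin t → K) → ℂ) := fun l => btS fun i => (l i).1
  have hbL : ∀ l, IsBlock O (bL l) := fun l => btS_block fun i => hblk _
  have hLi : Function.Injective bL := by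
    intro l l' h
    have e := btS_inj (fun i => hblk (l i)) (fun i => hblk (l' i)) h
    funext i
    exact Subtype.ext (congrFun e i)
  have hLc : ∀ l, Nat.card (bL l) = Nat.card b ^ t := by
    intro l
    simp only [bL]
    rw [card_btS fun _ => (hblk _).irr]
    simp only [hcard, Finset.prod_const, Finset.card_univ, Fintype.card_fin]
  have hLd : ∀ l, HasDefect p (bL l) (t * d) := by
    intro l
    have h := btS_defect (I := Fin t) (fun i => (hblk (l i)).irr) (fun i => hdef (l i))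
    rwa [Finset.sum_const, Finset.card_univ, Fintype.card_fin, smul_eq_mul] at h
  let bI : (Fin t → conjs b) × (Fin t → conjs b) → Set ((Fin t → K) × (Fin t → K) → ℂ) :=
    fun i => tenS (bL i.1) (bL i.2)
  have hbI : ∀ i, IsBlock O (bI i) := fun i => tenS_block (hbL _) (hbL _)
  have hIi : Function.Injective bI := by
    rintro ⟨a, a'⟩ ⟨c, c'⟩ h
    obtain ⟨e1, e2⟩ := tenS_inj (hbL _) (hbL _) (hbL _) (hbL _) h
    exact Prod.ext (hLi e1) (hLi e2)
  have hIc : 4 ^ t ≤ Nat.card ((Fin t → conjs b) × (Fin t → conjs b)) := by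
    rw [Nat.card_prod, Nat.card_fun, Nat.card_eq_fintype_card (α := Fin t), Fintype.card_fin,
      show (4 : ℕ) = 2 * 2 from rfl, mul_pow]
    exact Nat.mul_le_mul (Nat.pow_le_pow_left hJ t) (Nat.pow_le_pow_left hJ t)
  have h4t : t < 2 ^ t := Nat.lt_two_pow_self
  have h44 : (4 : ℕ) ^ t = 2 ^ t * 2 ^ t := by
    rw [show (4 : ℕ) = 2 * 2 from rfl, mul_pow]
  have h16 : (t + 1) * (t + 1) ≤ 4 ^ t := by
    rw [h44]
    exact Nat.mul_le_mul h4t h4t
  have hmul : 2 * Nat.card Q + 5 ≤ (t + 1) * (t + 1) := by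
    rw [ht]
    nlinarith
  obtain ⟨X, iX, fX, B, h1, h2, h3, h4, h5, h6⟩ := stable_aux (O := O) (p := p) Q
    (show 5 ≤ Nat.card ((Fin t → conjs b) × (Fin t → conjs b)) by omega) (by omega)
    (perf_prod (perf_pi hK) (perf_pi hK)) (gen_prod (gen_pi hQ) (gen_pi hQ)) hbI hIi
    (k := Nat.card b ^ (2 * t)) (d := 2 * t * d)
    (by
      intro i
      simp only [bI]
      rw [card_tenS (hbL _).irr (hbL _).irr, hLc, hLc]
      ring)
    (by
      intro i
      have h3 := tenS_defect (hbL i.1).irr (hbL i.2).irr (hLd i.1) (hLd i.2)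
      have e : t * d + t * d = 2 * t * d := by ring
      rwa [e] at h3)
    (by
      intro σ
      refine ⟨Equiv.prodCongr (Equiv.piCongrRight fun _ => cperm b σ)
        (Equiv.piCongrRight fun _ => cperm b σ), ?_, ?_⟩
      · exact mem_alt_self (L := Fin t → conjs b) (Equiv.piCongrRight fun _ => cperm b σ)
      · rintro ⟨a, c⟩
        change gal σ (tenS (btS fun i => (a i).1) (btS fun i => (c i).1)) = _
        rw [gal_tenS, gal_btS, gal_btS]
        rfl)
  refine ⟨X, iX, fX, B, 2 * t * Nat.card ((Fin t → conjs b) × (Fin t → conjs b)), h1, h2, h3, h4,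
    ?_, ?_, ?_⟩
  · refine Nat.mul_pos (by omega) (by omega)
  · rw [h5, ← pow_mul]
  · have e : Nat.card ((Fin t → conjs b) × (Fin t → conjs b)) * (2 * t * d) =
        2 * t * Nat.card ((Fin t → conjs b) × (Fin t → conjs b)) * d := by ring
    rwa [e] at h6

end Pool.Agent.K3h3.KB
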