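import Pool.Agent.K3h3.KB.Cov2
import Pool.Agent.K3h3.KB.Stab

/-!
# From blocks of arbitrary groups to blocks of perfect groups
-/

set_option autoImplicit false
set_option linter.unusedSectionVars false
set_option linter.style.haveILetI false

open scoped BigOperators Classical

noncomputable section

namespace Pool.Agent.K3h3.KB

open Pool.Agent.Helper884 Pool.Agent.H254R3.IN Pool.Agent.Q288.MB SemidirectProduct

section grp

variable {I G : Type} [Group G] [Fintype I]

/-- the wreath product of `G` with the alternating group on `I` -/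
abbrev AWr (G : Type) [Group G] (I : Type) [Fintype I] : Type :=
  (I → G) ⋊[pAct G (alternatingGroup I)] (alternatingGroup I)

/-- the normal closure of the alternating group -/
def altCl (G : Type) [Group G] (I : Type) [Fintype I] : Subgroup (AWr G I) :=
  Subgroup.normalClosure (Set.range (inr : alternatingGroup I →* AWr G I))

instance altCl_normal : (altCl G I).Normal := Subgroup.normalClosure_normal

theorem inr_mem (s : alternatingGroup I) : (inr s : AWr G I) ∈ altCl G I :=
  Subgroup.subset_normalClosure ⟨s, rfl⟩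

theorem altCl_perfect (hI : 5 ≤ Nat.card I) : commutator (altCl G I) = ⊤ := by
  rw [← Group.isPerfect_def, Subgroup.isPerfect_iff]
  apply le_antisymm (Subgroup.commutator_le_self _)
  have hn : (⁅altCl G I, altCl G I⁆).Normal := Subgroup.commutator_normal _ _
  refine Subgroup.normalClosure_le_normal ?_
  have h1 : Group.IsPerfect (alternatingGroup I) :=
    Group.isPerfect_def.mpr (commutator_alternatingGroup_eq_top hI)
  have h2 : Group.IsPerfect (inr : alternatingGroup I →* AWr G I).range := Group.IsPerfect.range _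
  have h3 := Subgroup.isPerfect_iff.mp h2
  have h4 : (inr : alternatingGroup I →* AWr G I).range ≤ altCl G I := by
    rintro _ ⟨s, rfl⟩
    exact inr_mem s
  rintro _ ⟨s, rfl⟩
  have h5 : (inr s : AWr G I) ∈ (inr : alternatingGroup I →* AWr G I).range := ⟨s, rfl⟩
  rw [← h3] at h5
  exact Subgroup.commutator_mono h4 h4 h5

theorem altCl_gen (Q : Type) [Group Q] [Finite Q] [Nontrivial Q] (hI : 5 ≤ Nat.card I)
    (hQ : 2 * Nat.card Q ≤ Nat.card I) : GenBy Q (altCl G I) := by
  set N := (sSup {H : Subgroup (altCl G I) | Nonempty (H ≃* Q)}).map (altCl G I).subtype with hN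
  have hn : N.Normal := by
    refine ⟨fun n hn x => ?_⟩
    obtain ⟨y, hy, rfl⟩ := hn
    exact ⟨MulAut.conjNormal x y, (gen_equiv (Q := Q) (MulAut.conjNormal x) y).mpr hy, rfl⟩
  have h1 : altCl G I ≤ N := by
    refine Subgroup.normalClosure_le_normal ?_
    rintro _ ⟨s, rfl⟩
    let f : alternatingGroup I →* altCl G I :=
      (inr : alternatingGroup I →* AWr G I).codRestrict (altCl G I) inr_mem
    have hf : Function.Injective f := by
      intro a b h
      exact inr_injective (congrArg Subtype.val h)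
    exact ⟨f s, mem_gen_of_hom f hf (gen_alt hI hQ) s, rfl⟩
  unfold GenBy
  rw [eq_top_iff]
  intro x _
  obtain ⟨y, hy, hxy⟩ := h1 x.2
  have : y = x := Subtype.ext hxy
  rwa [← this]

theorem exists_alt (hI : 5 ≤ Nat.card I) (i j : I) :
    ∃ s : alternatingGroup I, (s : Equiv.Perm I) i = j := by
  by_cases hij : i = j
  · exact ⟨1, by simpa using hij⟩
  · obtain ⟨k, hk⟩ : ∃ k : I, k ∉ ({i, j} : Finset I) := by
      by_contra hcon
      push Not at hcon
      have h1 : (Finset.univ : Finset I) ⊆ {i, j} := fun k _ => hcon k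
      have h2 := Finset.card_le_card h1
      have h3 : ({i, j} : Finset I).card ≤ 2 := Finset.card_le_two
      rw [Finset.card_univ, ← Nat.card_eq_fintype_card] at h2
      omega
    simp only [Finset.mem_insert, Finset.mem_singleton, not_or] at hk
    refine ⟨⟨Equiv.swap i k * Equiv.swap i j, ?_⟩, ?_⟩
    · rw [Equiv.Perm.mem_alternatingGroup, Equiv.Perm.sign_mul, Equiv.Perm.sign_swap hij,
        Equiv.Perm.sign_swap (Ne.symm hk.1)]
      rfl
    · change Equiv.swap i k (Equiv.swap i j i) = j
      rw [Equiv.swap_apply_left, Equiv.swap_apply_of_ne_of_ne (Ne.symm hij) (Ne.symm hk.2)]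

theorem pAct_single (s : alternatingGroup I) (i : I) (x : G) :
    pAct G (alternatingGroup I) s (Pi.mulSingle i x) = Pi.mulSingle ((s : Equiv.Perm I) i) x := by
  funext k
  rw [pAct_apply]
  by_cases h : k = (s : Equiv.Perm I) i
  · subst h
    rw [Pi.mulSingle_eq_same]
    simp
  · rw [Pi.mulSingle_eq_of_ne h, Pi.mulSingle_eq_of_ne]
    intro h'
    apply h
    rw [← h']
    simp

theorem mk_inr (s : alternatingGroup I) : QuotientGroup.mk' (altCl G I) (inr s) = 1 :=
  (QuotientGroup.eq_one_iff _).mpr (inr_mem s)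

theorem mk_single (hI : 5 ≤ Nat.card I) (i j : I) (x : G) :
    QuotientGroup.mk' (altCl G I) (inl (Pi.mulSingle i x)) =
      QuotientGroup.mk' (altCl G I) (inl (Pi.mulSingle j x)) := by
  obtain ⟨s, rfl⟩ := exists_alt hI i j
  rw [← pAct_single, inl_aut, map_mul, map_mul, mk_inr, mk_inr, one_mul, mul_one]

theorem quot_surj (hI : 5 ≤ Nat.card I) (i₀ : I) : Function.Surjective
    (((QuotientGroup.mk' (altCl G I)).comp inl).comp (MonoidHom.mulSingle (fun _ : I => G) i₀)) := by
  set f := ((QuotientGroup.mk' (altCl G I)).comp (inl : (I → G) →* AWr G I)).comp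
    (MonoidHom.mulSingle (fun _ : I => G) i₀) with hf
  intro z
  obtain ⟨x, rfl⟩ := QuotientGroup.mk'_surjective (altCl G I) z
  have h1 : QuotientGroup.mk' (altCl G I) x = QuotientGroup.mk' (altCl G I) (inl x.left) := by
    conv_lhs => rw [← inl_left_mul_inr_right x]
    rw [map_mul, mk_inr, mul_one]
  rw [h1]
  have h2 : x.left ∈ (f.range).comap ((QuotientGroup.mk' (altCl G I)).comp
      (inl : (I → G) →* AWr G I)) := by
    apply Subgroup.pi_mem_of_mulSingle_mem
    intro i
    rw [Subgroup.mem_comap]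
    exact ⟨x.left i, mk_single hI i₀ i (x.left i)⟩
  exact h2

theorem quot_comm (hI : 5 ≤ Nat.card I) : commutator (AWr G I) ≤ altCl G I := by
  obtain ⟨i₀⟩ : Nonempty I := (Nat.card_pos_iff.mp (by omega)).1
  rw [commutator_def, Subgroup.commutator_le]
  intro a _ b _
  rw [← QuotientGroup.eq_one_iff]
  obtain ⟨x, hx⟩ := quot_surj (G := G) hI i₀ (QuotientGroup.mk' (altCl G I) a)
  obtain ⟨y, hy⟩ := quot_surj (G := G) hI i₀ (QuotientGroup.mk' (altCl G I) b)
  have hc : Commute (QuotientGroup.mk' (altCl G I) a) (QuotientGroup.mk' (altCl G I) b) := by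
    rw [← hx, ← hy]
    obtain ⟨j, hj⟩ : ∃ j : I, j ≠ i₀ := by
      by_contra hcon
      push Not at hcon
      have : Subsingleton I := ⟨fun a b => (hcon a).trans (hcon b).symm⟩
      have := Finite.card_le_one_iff_subsingleton.mpr this
      omega
    change Commute (QuotientGroup.mk' (altCl G I) (inl (Pi.mulSingle i₀ x)))
      (QuotientGroup.mk' (altCl G I) (inl (Pi.mulSingle i₀ y)))
    rw [mk_single hI i₀ j y]
    exact ((Pi.mulSingle_commute (f := fun _ : I => G) (Ne.symm hj) x y).map inl).map _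
  change QuotientGroup.mk' (altCl G I) _ = 1
  rw [map_commutatorElement, commutatorElement_eq_one_iff_commute]
  exact hc

theorem quot_index (hI : 5 ≤ Nat.card I) [Finite G] : (altCl G I).index ≤ Nat.card G := by
  obtain ⟨i₀⟩ : Nonempty I := (Nat.card_pos_iff.mp (by omega)).1
  exact Nat.card_le_card_of_surjective _ (quot_surj hI i₀)

end grp

variable {p : ℕ} [hp : Fact p.Prime] {O : ValuationSubring ℂ}

theorem exists_perfect_aux (hpO : (p : ℂ) ∈ O.nonunits) {G I : Type} [Group G] [Fintype G]
    [Fintype I] (hI : 5 ≤ Nat.card I) {b : I → Set (G → ℂ)} (hb : ∀ i, IsBlock O (b i))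
    (hinj : Function.Injective b) {d k : ℕ} (hd : ∀ i, HasDefect p (b i) d)
    (hk : ∀ i, Nat.card (b i) = k) :
    ∃ (K : Type) (_ : Group K) (_ : Finite K) (b' : Set (K → ℂ)) (d' : ℕ), commutator K = ⊤ ∧
      (∀ (Q : Type) [Group Q] [Finite Q] [Nontrivial Q], 2 * Nat.card Q ≤ Nat.card I →
        GenBy Q K) ∧
      IsBlock O b' ∧ HasDefect p b' d' ∧
      k ^ Nat.card I ≤ Nat.card G ^ 2 * Nat.card b' ∧
      p ^ d' ≤ Nat.card G * p ^ (Nat.card I * d) := by
  have hblk := wrS_block (alternatingGroup I) hb hinj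
  have hdef : HasDefect p (wrS (alternatingGroup I) b) (Nat.card I * d) := by
    have h1 := wrS_defect (p := p) (alternatingGroup I) hb hinj (d := fun _ => d) hd
    have e : ∑ _i : I, d = Nat.card I * d := by
      rw [Finset.sum_const, Finset.card_univ, smul_eq_mul, ← Nat.card_eq_fintype_card]
    rwa [e] at h1
  have hcard : Nat.card (wrS (alternatingGroup I) b) = k ^ Nat.card I := by
    rw [card_wrS _ hb hinj, Finset.prod_congr rfl fun l _ => hk l, Finset.prod_const,
      Finset.card_univ, ← Nat.card_eq_fintype_card]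
  obtain ⟨b', hb', d', hd', h1, h2⟩ := exists_below (altCl G I) hpO (quot_comm hI) hblk hdef
  have hidx : (altCl G I).index ≤ Nat.card G := quot_index hI
  refine ⟨altCl G I, inferInstance, inferInstance, b', d', altCl_perfect hI,
    fun Q _ _ _ hQ => altCl_gen Q hI hQ, hb', hd', ?_, ?_⟩
  · rw [← hcard]
    exact h1.trans (Nat.mul_le_mul_right _ (Nat.pow_le_pow_left hidx 2))
  · exact h2.trans (Nat.mul_le_mul_right _ hidx)

/-- **Perfect groups.** -/
theorem exists_perfect (hpO : (p : ℂ) ∈ O.nonunits) {G : Type} [Group G] [Finite G]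
    {B : Set (G → ℂ)} (hB : IsBlock O B) {d : ℕ} (hd : HasDefect p B d) {r : ℕ} (hr : 5 ≤ r)
    (hpr : ¬ p ∣ r) :
    ∃ (K : Type) (_ : Group K) (_ : Finite K) (b : Set (K → ℂ)) (d' : ℕ), commutator K = ⊤ ∧
      (∀ (Q : Type) [Group Q] [Finite Q] [Nontrivial Q], 2 * Nat.card Q ≤ r → GenBy Q K) ∧
      IsBlock O b ∧ HasDefect p b d' ∧
      Nat.card B ^ r ≤ (Nat.card G * r) ^ 2 * Nat.card b ∧
      p ^ d' ≤ (Nat.card G * r) * p ^ (r * d) := by
  have := Fintype.ofFinite G
  have hr0 : NeZero r := ⟨by omega⟩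
  let C := Multiplicative (ZMod r)
  have hC : Nat.card C = r := by
    change Nat.card (ZMod r) = r
    exact Nat.card_zmod r
  have hI : Nat.card (C →* ℂˣ) = r := by rw [card_dual, hC]
  have hpC : ¬ p ∣ Nat.card C := by rwa [hC]
  let chr : (C →* ℂˣ) → C → ℂ := fun l c => ((l c : ℂˣ) : ℂ)
  have hchr : ∀ l, IsIrr (chr l) := fun l => lin_irr l
  have hsb : ∀ l, IsBlock O ({chr l} : Set (C → ℂ)) := fun l => block_singleton hpO hpC (hchr l)
  have hsd : ∀ l, HasDefect p ({chr l} : Set (C → ℂ)) 0 := by
    intro l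
    have h0 : (Nat.card C).factorization p = 0 := Nat.factorization_eq_zero_of_not_dvd hpC
    have h1 : vd p (chr l) = 0 := by
      have := vd_le (O := O) hpO (hchr l)
      omega
    rw [hasDefect_iff (hsb l).irr]
    refine ⟨?_, chr l, rfl, by omega⟩
    rintro χ rfl
    omega
  let b : (C →* ℂˣ) → Set (G × C → ℂ) := fun l => tenS B {chr l}
  have hb : ∀ l, IsBlock O (b l) := fun l => tenS_block hB (hsb l)
  have hinj : Function.Injective b := by
    intro l l' h
    obtain ⟨-, e⟩ := tenS_inj hB hB (hsb l) (hsb l') h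
    have e1 : chr l = chr l' := Set.singleton_injective e
    ext c
    exact congrFun e1 c
  have hI5 : 5 ≤ Nat.card (C →* ℂˣ) := by omega
  have hd' : ∀ l, HasDefect p (b l) d := fun l => by
    have := tenS_defect hB.irr (hsb l).irr hd (hsd l)
    rwa [add_zero] at this
  have hk : ∀ l, Nat.card (b l) = Nat.card B := by
    intro l
    simp only [b]
    rw [card_tenS hB.irr (hsb l).irr]
    simp
  have h := exists_perfect_aux hpO hI5 hb hinj hd' hk
  rw [hI, Nat.card_prod, hC] at h
  exact h

end Pool.Agent.K3h3.KB
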