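import Pool.Agent.K3h3.KB.Pi

/-!
# Blocks of semidirect products above blocks with trivial stabiliser
-/

set_option autoImplicit false
set_option linter.unusedSectionVars false
set_option linter.style.haveILetI false

open scoped BigOperators Classical

noncomputable section

namespace Pool.Agent.K3h3.KB

open Pool.Agent.Helper884 Pool.Agent.H254R3.IN Pool.Agent.Q288.MB SemidirectProduct
open Pool.Agent.Q90.WR (irr_of_norm deg_pos irr_comp B_nat)

section sd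

variable {N S : Type} [Group N] [Group S] [Fintype N] [Fintype S] {φ : S →* MulAut N}

instance sdFintype : Fintype (N ⋊[φ] S) := Fintype.ofEquiv _ equivProd.symm

theorem sum_sd (F : N ⋊[φ] S → ℂ) : ∑ x, F x = ∑ n, ∑ s, F ⟨n, s⟩ := by
  rw [← Fintype.sum_prod_type']
  exact Fintype.sum_equiv equivProd _ _ fun x => rfl

/-- the class function of the semidirect product induced from `N` -/
def sInd (φ : S →* MulAut N) (f : N → ℂ) (x : N ⋊[φ] S) : ℂ :=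
  if x.right = 1 then ∑ t : S, f (φ t x.left) else 0

theorem sInd_mk (f : N → ℂ) (n : N) (s : S) :
    sInd φ f ⟨n, s⟩ = if s = 1 then ∑ t : S, f (φ t n) else 0 := rfl

theorem sum_sd' (F : N → S → ℂ) : ∑ n, ∑ s, (if s = 1 then F n s else 0) = ∑ n, F n 1 := by
  refine Finset.sum_congr rfl fun n _ => ?_
  simp

theorem sInd_cl {f : N → ℂ} (hf : IsCl f) : IsCl (sInd φ f) := by
  rintro ⟨n, s⟩ ⟨m, u⟩
  unfold sInd
  by_cases hs : s = 1
  · subst hs
    have h1 : ((⟨m, u⟩ : N ⋊[φ] S) * ⟨n, 1⟩ * ⟨m, u⟩⁻¹).right = 1 := by simp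
    have h2 : ((⟨m, u⟩ : N ⋊[φ] S) * ⟨n, 1⟩ * ⟨m, u⟩⁻¹).left = m * φ u n * m⁻¹ := by
      simp only [mul_left, mul_right, inv_left, mul_one]
      rw [← MulAut.mul_apply, ← map_mul, mul_inv_cancel, map_one, MulAut.one_apply]
    rw [if_pos h1, h2, if_pos rfl]
    refine Fintype.sum_equiv (Equiv.mulRight u) _ _ fun t => ?_
    simp only [Equiv.coe_mulRight, map_mul, map_inv, MulAut.mul_apply]
    exact hf _ _
  · have h1 : ((⟨m, u⟩ : N ⋊[φ] S) * ⟨n, s⟩ * ⟨m, u⟩⁻¹).right ≠ 1 := by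
      simp only [mul_right, inv_right]
      intro h
      apply hs
      have := congrArg (fun z => u⁻¹ * z * u) h
      simpa [mul_assoc] using this
    rw [if_neg h1, if_neg hs]

theorem cl_inl {h : N ⋊[φ] S → ℂ} (hh : IsCl h) (t : S) (n : N) :
    h (inl (φ t n)) = h (inl n) := by
  rw [inl_aut, map_inv]
  exact hh _ _

theorem card_sd : Nat.card (N ⋊[φ] S) = Nat.card N * Nat.card S := SemidirectProduct.card

theorem cardS_ne : (Nat.card S : ℂ) ≠ 0 := by exact_mod_cast Nat.card_pos.ne'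

/-- Frobenius reciprocity -/
theorem B_sInd (f : N → ℂ) {h : N ⋊[φ] S → ℂ} (hh : IsCl h) :
    IC.B (sInd φ f) h = IC.B f (fun n => h (inl n)) := by
  unfold IC.B
  rw [sum_sd, card_sd]
  have h1 : ∀ (n : N) (s : S), sInd φ f ⟨n, s⟩ * h (⟨n, s⟩ : N ⋊[φ] S)⁻¹ =
      if s = 1 then (∑ t : S, f (φ t n)) * h (inl n⁻¹) else 0 := by
    intro n s
    rw [sInd_mk]
    by_cases hs : s = 1
    · subst hs
      rw [if_pos rfl, if_pos rfl]
      congr 2
      ext <;> simp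
    · rw [if_neg hs, if_neg hs, zero_mul]
  simp_rw [h1]
  rw [sum_sd' (fun n _ => (∑ t : S, f (φ t n)) * h (inl n⁻¹))]
  simp_rw [Finset.sum_mul]
  rw [Finset.sum_comm]
  have h2 : ∀ t : S, ∑ n : N, f (φ t n) * h (inl n⁻¹) = ∑ n : N, f n * h (inl n⁻¹) := by
    intro t
    refine Fintype.sum_equiv (φ t).toEquiv _ _ fun n => ?_
    simp only [MulEquiv.toEquiv_eq_coe, EquivLike.coe_coe]
    congr 1
    rw [← cl_inl hh t n⁻¹, map_inv]
  simp_rw [h2]
  rw [Finset.sum_const, Finset.card_univ, nsmul_eq_mul, ← Nat.card_eq_fintype_card]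
  have := cardS_ne (S := S)
  have := IC.cardG_ne (G := N)
  push_cast
  field_simp

theorem sInd_inl (f : N → ℂ) (n : N) : sInd φ f (inl n) = ∑ t : S, f (φ t n) := by
  unfold sInd
  rw [right_inl, if_pos rfl, left_inl]

theorem sInd_one (f : N → ℂ) : sInd φ f 1 = Nat.card S * f 1 := by
  have h : (1 : N ⋊[φ] S) = inl 1 := (map_one inl).symm
  rw [h, sInd_inl]
  simp [Nat.card_eq_fintype_card]

/-- the norm of induced characters -/
theorem B_sInd_sInd {θ ψ : N → ℂ} (h1 : IsIrr θ) (h2 : IsIrr ψ)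
    (h : ∀ t : S, t ≠ 1 → θ ≠ fun n => ψ (φ t n)) :
    IC.B (sInd φ θ) (sInd φ ψ) = if θ = ψ then 1 else 0 := by
  have hcl : IsCl (sInd φ ψ) := sInd_cl (fun g y => h2.conj g y)
  rw [B_sInd θ hcl]
  have e : (fun n => sInd φ ψ (inl n)) = ∑ t : S, fun n => ψ (φ t n) := by
    funext n
    rw [sInd_inl, Finset.sum_apply]
  rw [e, IC.B_comm, IC.B_sum_left]
  have h3 : ∀ t : S, IC.B (fun n => ψ (φ t n)) θ = if t = 1 then (if θ = ψ then 1 else 0) else 0 := by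
    intro t
    have hi : IsIrr (fun n => ψ (φ t n)) := irr_comp (φ t) h2
    rw [IC.B_irr hi h1]
    by_cases ht : t = 1
    · subst ht
      have e2 : (fun n => ψ (φ (1 : S) n)) = ψ := by
        funext n
        simp
      rw [e2, if_pos rfl]
      exact if_congr ⟨fun h => h.symm, fun h => h.symm⟩ rfl rfl
    · rw [if_neg ht, if_neg fun h' => h t ht h'.symm]
  simp_rw [h3]
  simp

theorem sInd_irr {θ : N → ℂ} (h1 : IsIrr θ) (h : ∀ t : S, t ≠ 1 → θ ≠ fun n => θ (φ t n)) :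
    IsIrr (sInd φ θ) := by
  refine irr_of_norm (sInd_cl (fun g y => h1.conj g y)) ?_ ?_ ?_
  · intro χ hχ
    have hχ' : IsIrr χ := hχ
    rw [B_sInd θ (fun g y => hχ'.conj g y)]
    obtain ⟨V, _, _, _, ρ, _, rfl⟩ := h1
    obtain ⟨W, _, _, _, σ, _, rfl⟩ := hχ
    let τ : Representation ℂ N W := σ.comp (inl : N →* N ⋊[φ] S)
    obtain ⟨n, hn⟩ := B_nat ρ τ
    refine ⟨n, ?_⟩
    have e : (fun n => σ.character ((inl : N →* N ⋊[φ] S) n)) = τ.character := rfl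
    rw [e, hn]
    norm_cast
  · rw [B_sInd_sInd h1 h1 h, if_pos rfl]
  · refine ⟨Nat.card S * ndeg θ, ?_⟩
    rw [sInd_one, ← ndeg_cast h1]
    push_cast
    rfl

/-- the set of the induced characters -/
def sIndS (φ : S →* MulAut N) (b : Set (N → ℂ)) : Set (N ⋊[φ] S → ℂ) :=
  {χ | ∃ θ ∈ b, χ = sInd φ θ}

variable {b : Set (N → ℂ)} {O : ValuationSubring ℂ}

theorem sIndS_irr (hb : ∀ θ ∈ b, IsIrr θ)
    (hf : ∀ t : S, t ≠ 1 → ∀ θ ∈ b, (fun n => θ (φ t n)) ∉ b) : ∀ χ ∈ sIndS φ b, IsIrr χ := by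
  rintro χ ⟨θ, h, rfl⟩
  exact sInd_irr (hb θ h) fun t ht e => hf t ht θ h (e ▸ h)

theorem sInd_injOn (hb : ∀ θ ∈ b, IsIrr θ)
    (hf : ∀ t : S, t ≠ 1 → ∀ θ ∈ b, (fun n => θ (φ t n)) ∉ b) :
    Set.InjOn (sInd φ) (fs b : Set (N → ℂ)) := by
  intro θ h ψ h' e
  rw [Finset.mem_coe, mem_fs hb] at h h'
  have h1 := B_sInd_sInd (φ := φ) (hb θ h) (hb ψ h') fun t ht e => hf t ht ψ h' (e ▸ h)
  have h2 := B_sInd_sInd (φ := φ) (hb θ h) (hb θ h) fun t ht e => hf t ht θ h (e ▸ h)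
  rw [if_pos rfl] at h2
  rw [← e, h2] at h1
  by_contra hne
  rw [if_neg hne] at h1
  exact one_ne_zero h1

theorem sIndS_eq (hb : ∀ θ ∈ b, IsIrr θ) : sIndS φ b = sInd φ '' (fs b : Set (N → ℂ)) := by
  rw [coe_fs hb]
  ext χ
  constructor
  · rintro ⟨θ, h, rfl⟩
    exact ⟨θ, h, rfl⟩
  · rintro ⟨θ, h, rfl⟩
    exact ⟨θ, h, rfl⟩

theorem card_sIndS (hb : ∀ θ ∈ b, IsIrr θ)
    (hf : ∀ t : S, t ≠ 1 → ∀ θ ∈ b, (fun n => θ (φ t n)) ∉ b) :
    Nat.card (sIndS φ b) = Nat.card b := by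
  rw [sIndS_eq hb, card_image_fin _ _ (sInd_injOn hb hf), card_eq_fs hb]

theorem blockCoeff_sIndS (hb : ∀ θ ∈ b, IsIrr θ)
    (hf : ∀ t : S, t ≠ 1 → ∀ θ ∈ b, (fun n => θ (φ t n)) ∉ b) (x : N ⋊[φ] S) :
    blockCoeff (sIndS φ b) x = sInd φ (blockCoeff b) x := by
  rw [sIndS_eq hb, blockCoeff_image _ _ (sInd_injOn hb hf), card_sd]
  have hS := cardS_ne (S := S)
  have hN := IC.cardG_ne (G := N)
  have h1 : sInd φ (blockCoeff b) x = ∑ θ ∈ fs b, (Nat.card N : ℂ)⁻¹ * (θ 1 * sInd φ θ x⁻¹) := by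
    obtain ⟨n, s⟩ := x
    have hx : ∀ θ : N → ℂ, sInd φ θ (⟨n, s⟩ : N ⋊[φ] S)⁻¹ =
        if s = 1 then ∑ t : S, θ (φ t n)⁻¹ else 0 := by
      intro θ
      unfold sInd
      by_cases hs : s = 1
      · subst hs
        rw [if_pos (by simp), if_pos rfl]
        refine Finset.sum_congr rfl fun t _ => ?_
        simp
      · rw [if_neg (by simpa using hs), if_neg hs]
    simp_rw [hx]
    rw [sInd_mk]
    by_cases hs : s = 1
    · subst hs
      simp only [if_true]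
      simp_rw [blockCoeff_fs hb, Finset.mul_sum]
      rw [Finset.sum_comm]
    · simp [hs]
  rw [h1, Finset.mul_sum]
  refine Finset.sum_congr rfl fun θ _ => ?_
  rw [sInd_one]
  push_cast
  field_simp

theorem sInd_mem {f : N → ℂ} (hf : ∀ n, f n ∈ O) (x : N ⋊[φ] S) : sInd φ f x ∈ O := by
  unfold sInd
  split_ifs
  · exact sum_mem fun t _ => hf _
  · exact O.zero_mem

/-- the central character of an induced character -/
theorem omega_sInd {θ : N → ℂ} (hθ : IsIrr (sInd φ θ)) (x : N ⋊[φ] S) :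
    omega (sInd φ θ) x = Om (fun n => H254R3.IN.ind x (inl n)) θ := by
  rw [← Om_ind hθ]
  unfold Om
  rw [sum_sd, sInd_one]
  have h1 : ∀ (n : N) (s : S), H254R3.IN.ind x ⟨n, s⟩ * sInd φ θ ⟨n, s⟩ =
      if s = 1 then (∑ t : S, H254R3.IN.ind x (inl n) * θ (φ t n)) else 0 := by
    intro n s
    rw [sInd_mk]
    by_cases hs : s = 1
    · subst hs
      rw [if_pos rfl, if_pos rfl, Finset.mul_sum]
      rfl
    · rw [if_neg hs, if_neg hs, mul_zero]
  simp_rw [h1]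
  rw [sum_sd' (fun n _ => ∑ t : S, H254R3.IN.ind x (inl n) * θ (φ t n)), Finset.sum_comm]
  have h2 : ∀ t : S, ∑ n : N, H254R3.IN.ind x (inl n) * θ (φ t n) =
      ∑ n : N, H254R3.IN.ind x (inl n) * θ n := by
    intro t
    refine Fintype.sum_equiv (φ t).toEquiv _ _ fun n => ?_
    simp only [MulEquiv.toEquiv_eq_coe, EquivLike.coe_coe]
    rw [cl_inl (ind_cl x) t n]
  simp_rw [h2]
  rw [Finset.sum_const, Finset.card_univ, nsmul_eq_mul, ← Nat.card_eq_fintype_card,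
    mul_div_mul_left _ _ (cardS_ne (S := S))]

theorem sIndS_block (hb : IsBlock O b)
    (hf : ∀ t : S, t ≠ 1 → ∀ θ ∈ b, (fun n => θ (φ t n)) ∉ b) : IsBlock O (sIndS φ b) := by
  have hi := hb.irr
  have hI := sIndS_irr hi hf
  obtain ⟨θ, hθ⟩ := hb.nonempty
  refine isBlock_of ⟨_, θ, hθ, rfl⟩ hI ?_ ?_
  · rintro _ ⟨θ, a1, rfl⟩ _ ⟨ψ, a2, rfl⟩ x
    rw [omega_sInd (hI _ ⟨θ, a1, rfl⟩), omega_sInd (hI _ ⟨ψ, a2, rfl⟩)]
    refine red_Om_eq hb a1 a2 ?_ fun n => ind_mem O x _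
    intro n m
    simp only [map_mul, map_inv]
    exact ind_cl x _ _
  · intro x
    rw [blockCoeff_sIndS hi hf]
    exact sInd_mem (blockCoeff_mem hb) x

theorem vd_sInd {p : ℕ} {θ : N → ℂ} (h : IsIrr θ) :
    vd p (sInd φ θ) = (Nat.card S).factorization p + vd p θ := by
  unfold vd
  have e : ndeg (sInd φ θ) = Nat.card S * ndeg θ := by
    apply ndeg_eq
    rw [sInd_one]
    push_cast
    rw [ndeg_cast h]
  rw [e, Nat.factorization_mul Nat.card_pos.ne' (ndeg_pos h).ne']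
  rfl

theorem sIndS_defect {p : ℕ} (hb : ∀ θ ∈ b, IsIrr θ)
    (hf : ∀ t : S, t ≠ 1 → ∀ θ ∈ b, (fun n => θ (φ t n)) ∉ b) {d : ℕ} (hd : HasDefect p b d) :
    HasDefect p (sIndS φ b) d := by
  rw [hasDefect_iff hb] at hd
  rw [hasDefect_iff (sIndS_irr hb hf), card_sd,
    Nat.factorization_mul Nat.card_pos.ne' Nat.card_pos.ne', Finsupp.add_apply]
  obtain ⟨h1, θ₀, h0, h2⟩ := hd
  constructor
  · rintro _ ⟨θ, h, rfl⟩
    rw [vd_sInd (hb _ h)]
    have := h1 θ h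
    omega
  · refine ⟨_, ⟨θ₀, h0, rfl⟩, ?_⟩
    rw [vd_sInd (hb _ h0)]
    omega

end sd

end Pool.Agent.K3h3.KB
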