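import Pool.Agent.K3h3.KB.Sd

/-!
# Blocks of wreath products above families of distinct blocks
-/

set_option autoImplicit false
set_option linter.unusedSectionVars false
set_option linter.style.haveILetI false

open scoped BigOperators Classical

noncomputable section

namespace Pool.Agent.K3h3.KB

open Pool.Agent.Helper884 Pool.Agent.H254R3.IN Pool.Agent.Q288.MB SemidirectProduct
open Pool.Agent.Q90.WR (irr_of_norm deg_pos irr_comp B_nat irr_gal)
open Pool.Agent.Q99.AS (ten ten_irr ten_inj B_ten isConj_prod)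

section wr

variable {I G : Type} [Group G]

/-- the action of a permutation group of `I` on `G ^ I` -/
def pAct (G : Type) [Group G] (S : Subgroup (Equiv.Perm I)) : S →* MulAut (I → G) where
  toFun s :=
    { toFun := fun g i => g ((s : Equiv.Perm I)⁻¹ i)
      invFun := fun g i => g ((s : Equiv.Perm I) i)
      left_inv := fun g => by
        funext i
        simp
      right_inv := fun g => by
        funext i
        simp
      map_mul' := fun _ _ => rfl }
  map_one' := by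
    ext g i
    simp
  map_mul' s t := by
    ext g i
    simp

theorem pAct_apply (S : Subgroup (Equiv.Perm I)) (s : S) (g : I → G) (i : I) :
    pAct G S s g i = g ((s : Equiv.Perm I)⁻¹ i) := rfl

variable [Fintype I] (S : Subgroup (Equiv.Perm I))

theorem bt_pAct (ψ : I → G → ℂ) (s : S) :
    (fun g => bt ψ (pAct G S s g)) = bt (fun i => ψ ((s : Equiv.Perm I) i)) := by
  funext g
  unfold bt
  refine Fintype.prod_equiv (s : Equiv.Perm I)⁻¹ _ _ fun i => ?_
  rw [pAct_apply]
  simp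

variable [Fintype G] {b : I → Set (G → ℂ)} {O : ValuationSubring ℂ}

/-- the induced characters of the wreath product -/
def wrS (b : I → Set (G → ℂ)) : Set (((I → G) ⋊[pAct G S] S) → ℂ) := sIndS (pAct G S) (btS b)

theorem free_btS (hb : ∀ i, IsBlock O (b i)) (hinj : Function.Injective b) :
    ∀ t : S, t ≠ 1 → ∀ θ ∈ btS b, (fun n => θ (pAct G S t n)) ∉ btS b := by
  rintro t ht _ ⟨ψ, h, rfl⟩
  rw [bt_pAct]
  rintro ⟨φ, h', e⟩
  apply ht
  have e1 := bt_inj (fun i => (hb _).irr _ (h _)) (fun i => (hb i).irr _ (h' i)) e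
  apply Subtype.ext
  apply Equiv.ext
  intro i
  by_contra hne
  have h1 : b ((t : Equiv.Perm I) i) ≠ b i := fun h => hne (hinj h)
  have h2 := block_disjoint (hb _) (hb i) h1
  refine Set.disjoint_left.mp h2 (h ((t : Equiv.Perm I) i)) ?_
  have e2 : ψ ((t : Equiv.Perm I) i) = φ i := congrFun e1 i
  rw [e2]
  exact h' i

theorem wrS_block (hb : ∀ i, IsBlock O (b i)) (hinj : Function.Injective b) :
    IsBlock O (wrS S b) :=
  sIndS_block (btS_block hb) (free_btS S hb hinj)

theorem card_wrS (hb : ∀ i, IsBlock O (b i)) (hinj : Function.Injective b) :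
    Nat.card (wrS S b) = ∏ i, Nat.card (b i) := by
  unfold wrS
  rw [card_sIndS (btS_block hb).irr (free_btS S hb hinj), card_btS fun i => (hb i).irr]

theorem wrS_defect {p : ℕ} (hb : ∀ i, IsBlock O (b i)) (hinj : Function.Injective b) {d : I → ℕ}
    (hd : ∀ i, HasDefect p (b i) (d i)) : HasDefect p (wrS S b) (∑ i, d i) :=
  sIndS_defect (btS_block hb).irr (free_btS S hb hinj) (btS_defect (fun i => (hb i).irr) hd)

/-! ### Galois conjugation -/

theorem gal_btS (σ : ℂ ≃+* ℂ) : gal σ (btS b) = btS fun i => gal σ (b i) := by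
  ext χ
  constructor
  · rintro ⟨_, ⟨ψ, h, rfl⟩, rfl⟩
    refine ⟨fun i g => σ (ψ i g), fun i => ⟨ψ i, h i, rfl⟩, ?_⟩
    funext g
    simp [bt]
  · rintro ⟨ψ, h, rfl⟩
    choose φ h1 h2 using h
    refine ⟨bt φ, ⟨φ, h1, rfl⟩, ?_⟩
    funext g
    simp [bt, h2]

theorem gal_sIndS {N T : Type} [Group N] [Group T] [Fintype N] [Fintype T] {φ : T →* MulAut N}
    (σ : ℂ ≃+* ℂ) (A : Set (N → ℂ)) : gal σ (sIndS φ A) = sIndS φ (gal σ A) := by
  have key : ∀ θ : N → ℂ, (fun x => σ (sInd φ θ x)) = sInd φ (fun n => σ (θ n)) := by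
    intro θ
    funext x
    unfold sInd
    split_ifs
    · rw [map_sum]
    · rw [map_zero]
  ext χ
  constructor
  · rintro ⟨_, ⟨ψ, h, rfl⟩, rfl⟩
    exact ⟨_, ⟨ψ, h, rfl⟩, key ψ⟩
  · rintro ⟨_, ⟨ψ, h, rfl⟩, rfl⟩
    exact ⟨_, ⟨ψ, h, rfl⟩, (key ψ).symm⟩

theorem wrS_perm (s : S) : wrS S (fun i => b ((s : Equiv.Perm I) i)) = wrS S b := by
  have key : ∀ (t : S) (f : (I → G) → ℂ),
      sInd (pAct G S) (fun n => f (pAct G S t n)) = sInd (pAct G S) f := by
    intro t f
    funext x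
    unfold sInd
    split_ifs
    · refine Fintype.sum_equiv (Equiv.mulLeft t) _ _ fun u => ?_
      simp only [Equiv.coe_mulLeft, map_mul, MulAut.mul_apply]
    · rfl
  ext χ
  constructor
  · rintro ⟨_, ⟨ψ, h, rfl⟩, rfl⟩
    refine ⟨bt (fun i => ψ ((s : Equiv.Perm I)⁻¹ i)), ⟨_, fun i => ?_, rfl⟩, ?_⟩
    · have := h ((s : Equiv.Perm I)⁻¹ i)
      simpa using this
    · have e := key s (bt fun i => ψ ((s : Equiv.Perm I)⁻¹ i))
      rw [bt_pAct] at e
      rw [← e]
      simp
  · rintro ⟨_, ⟨ψ, h, rfl⟩, rfl⟩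
    refine ⟨bt (fun i => ψ ((s : Equiv.Perm I) i)), ⟨_, fun i => h _, rfl⟩, ?_⟩
    rw [← bt_pAct, key s]

/-- if the Galois group permutes the family like the given permutation group, the block of the
wreath product is stable -/
theorem wrS_stable (σ : ℂ ≃+* ℂ) (s : S) (h : ∀ i, gal σ (b i) = b ((s : Equiv.Perm I) i)) :
    gal σ (wrS S b) = wrS S b := by
  conv_rhs => rw [← wrS_perm S s]
  unfold wrS
  rw [gal_sIndS, gal_btS]
  congr 1
  congr 1
  funext i
  exact h i

theorem gal_tenS {H : Type} (σ : ℂ ≃+* ℂ) (A₁ : Set (G → ℂ)) (A₂ : Set (H → ℂ)) [Group H] :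
    gal σ (tenS A₁ A₂) = tenS (gal σ A₁) (gal σ A₂) := by
  ext χ
  constructor
  · rintro ⟨_, ⟨θ, h, ψ, h', rfl⟩, rfl⟩
    refine ⟨_, ⟨θ, h, rfl⟩, _, ⟨ψ, h', rfl⟩, ?_⟩
    funext x
    simp [ten]
  · rintro ⟨_, ⟨θ, h, rfl⟩, _, ⟨ψ, h', rfl⟩, rfl⟩
    refine ⟨_, ⟨θ, h, ψ, h', rfl⟩, ?_⟩
    funext x
    simp [ten]

end wr

/-! ### perfect groups -/

section perf

variable {G H : Type} [Group G] [Group H]

theorem mem_comm_of_hom {A : Type} [Group A] (f : A →* G) (hA : commutator A = ⊤) (a : A) :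
    f a ∈ commutator G := by
  have h3 : a ∈ commutator A := by
    rw [hA]
    exact Subgroup.mem_top _
  have h4 : f a ∈ (commutator A).map f := ⟨a, h3, rfl⟩
  rw [commutator_def, Subgroup.map_commutator] at h4
  exact Subgroup.commutator_mono le_top le_top h4

theorem perf_prod (h1 : commutator G = ⊤) (h2 : commutator H = ⊤) : commutator (G × H) = ⊤ := by
  rw [eq_top_iff]
  rintro ⟨a, b⟩ _
  have e : (a, b) = MonoidHom.inl G H a * MonoidHom.inr G H b := by simp
  rw [e]
  exact Subgroup.mul_mem _ (mem_comm_of_hom _ h1 _) (mem_comm_of_hom _ h2 _)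

theorem perf_pi {I : Type} [Finite I] (h : commutator G = ⊤) : commutator (I → G) = ⊤ := by
  rw [eq_top_iff]
  intro x _
  apply Subgroup.pi_mem_of_mulSingle_mem
  intro i
  exact mem_comm_of_hom (MonoidHom.mulSingle (fun _ : I => G) i) h (x i)

theorem perf_sd {N T : Type} [Group N] [Group T] {φ : T →* MulAut N} (h1 : commutator N = ⊤)
    (h2 : commutator T = ⊤) : commutator (N ⋊[φ] T) = ⊤ := by
  rw [eq_top_iff]
  intro x _
  rw [← inl_left_mul_inr_right x]
  exact Subgroup.mul_mem _ (mem_comm_of_hom _ h1 _) (mem_comm_of_hom _ h2 _)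

end perf

end Pool.Agent.K3h3.KB
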